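import Mathlib

/-!
# Products of two subgroups whose exponent exceeds the product of the exponents

For every odd prime `p` and all `a`, `b` there is a finite `p`-group `G = A B` with `exp A = p ^ a`,
`exp B = p ^ b` and `exp G = p ^ (a + b + min a b)`.
-/

set_option autoImplicit false

namespace Pool.Agent.Results.MP_87fd0b_al.CubicLowerBound

open RegularWreathProduct Finset

/-! ## Regular wreath products -/

section Wreath

variable {D Q : Type} [Group D] [Group Q]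

/-- The wreath product of two subgroups. -/
def wr (D₁ : Subgroup D) (Q₁ : Subgroup Q) : Subgroup (D ≀ᵣ Q) where
  carrier := {w | (∀ x, w.left x ∈ D₁) ∧ w.right ∈ Q₁}
  mul_mem' := by
    rintro v w ⟨h1, h2⟩ ⟨h3, h4⟩
    exact ⟨fun x => D₁.mul_mem (h1 x) (h3 _), Q₁.mul_mem h2 h4⟩
  one_mem' := ⟨fun _ => D₁.one_mem, Q₁.one_mem⟩
  inv_mem' := by
    rintro v ⟨h1, h2⟩
    exact ⟨fun x => D₁.inv_mem (h1 _), Q₁.inv_mem h2⟩

theorem mem_wr {D₁ : Subgroup D} {Q₁ : Subgroup Q} {w : D ≀ᵣ Q} :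
    w ∈ wr D₁ Q₁ ↔ (∀ x, w.left x ∈ D₁) ∧ w.right ∈ Q₁ := Iff.rfl

theorem pow_right (w : D ≀ᵣ Q) (k : ℕ) : (w ^ k).right = w.right ^ k := by
  induction k with
  | zero => simp
  | succ k ih => rw [pow_succ, mul_right, ih, pow_succ]

theorem pow_left_of_right_eq_one {w : D ≀ᵣ Q} (h : w.right = 1) (k : ℕ) (x : Q) :
    (w ^ k).left x = w.left x ^ k := by
  induction k with
  | zero => simp
  | succ k ih =>
    rw [pow_succ, mul_left, Pi.mul_apply, ih, pow_right, h, one_pow, inv_one, one_mul, pow_succ]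

theorem pow_succ_left (w : D ≀ᵣ Q) (k : ℕ) (x : Q) :
    (w ^ (k + 1)).left x = w.left x * (w ^ k).left (w.right⁻¹ * x) := by
  rw [pow_succ', mul_left, Pi.mul_apply]

theorem wr_pow_eq_one {D₁ : Subgroup D} {Q₁ : Subgroup Q} {m n : ℕ} (hD : ∀ d ∈ D₁, d ^ m = 1)
    (hQ : ∀ q ∈ Q₁, q ^ n = 1) {w : D ≀ᵣ Q} (hw : w ∈ wr D₁ Q₁) : w ^ (n * m) = 1 := by
  have h1 : (w ^ n).right = 1 := by rw [pow_right, hQ _ hw.2]
  have h2 : w ^ n ∈ wr D₁ Q₁ := Subgroup.pow_mem _ hw n
  rw [pow_mul]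
  refine RegularWreathProduct.ext ?_ ?_
  · funext x
    rw [pow_left_of_right_eq_one h1, hD _ (h2.1 x)]
    rfl
  · rw [pow_right, h1, one_pow]
    rfl

open Classical in
/-- The element `(δ d, q)`. -/
noncomputable def el (d : D) (q : Q) : D ≀ᵣ Q := ⟨fun x => if x = 1 then d else 1, q⟩

theorem el_left_one (d : D) (q : Q) : (el d q).left 1 = d := by
  simp [el]

theorem el_left_of_ne (d : D) (q : Q) {x : Q} (h : x ≠ 1) : (el d q).left x = 1 := by
  simp [el, h]

theorem el_pow_left_aux (d : D) (q : Q) (k : ℕ) : ∀ m : ℕ, 1 ≤ m → m + k ≤ orderOf q →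
    ((el d q) ^ k).left (q ^ m)⁻¹ = 1 := by
  induction k with
  | zero =>
    intro m _ _
    rw [pow_zero]
    rfl
  | succ k ih =>
    intro m hm hk
    rw [pow_succ_left]
    have h1 : (q ^ m)⁻¹ ≠ 1 := by
      rw [Ne, inv_eq_one]
      exact pow_ne_one_of_lt_orderOf (by omega) (by omega)
    have h2 : (el d q).right⁻¹ * (q ^ m)⁻¹ = (q ^ (m + 1))⁻¹ := by
      change q⁻¹ * (q ^ m)⁻¹ = _
      rw [← mul_inv_rev, ← pow_succ]
    rw [el_left_of_ne _ _ h1, one_mul, h2]
    exact ih (m + 1) (by omega) (by omega)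

theorem el_pow_left (d : D) {q : Q} (hq : 0 < orderOf q) :
    ((el d q) ^ orderOf q).left 1 = d := by
  obtain ⟨k, hk⟩ := Nat.exists_eq_succ_of_ne_zero hq.ne'
  have h1 : orderOf q = k + 1 := hk
  rw [h1, pow_succ_left, el_left_one]
  have h2 : (el d q).right⁻¹ * 1 = (q ^ 1)⁻¹ := by
    rw [pow_one, mul_one]
    rfl
  rw [h2, el_pow_left_aux d q k 1 le_rfl (by omega), mul_one]

theorem orderOf_el (d : D) {q : Q} (hq : 0 < orderOf q) :
    orderOf q * orderOf d ∣ orderOf (el d q) := by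
  set M := orderOf (el d q) with hM
  have h0 : (el d q) ^ M = 1 := pow_orderOf_eq_one _
  have h1 : q ^ M = 1 := by
    have := congrArg RegularWreathProduct.right h0
    rw [pow_right] at this
    exact this
  obtain ⟨j, hj⟩ := orderOf_dvd_of_pow_eq_one h1
  have h2 : ((el d q) ^ orderOf q).right = 1 := by
    rw [pow_right]
    exact pow_orderOf_eq_one q
  have h3 : d ^ j = 1 := by
    have h4 : ((el d q) ^ M).left 1 = 1 := by
      rw [h0]
      rfl
    rw [hj, pow_mul, pow_left_of_right_eq_one h2, el_pow_left d hq] at h4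
    exact h4
  rw [hj]
  exact mul_dvd_mul_left _ (orderOf_dvd_of_pow_eq_one h3)

theorem el_mem {D₁ : Subgroup D} {Q₁ : Subgroup Q} {d : D} (hd : d ∈ D₁) {q : Q} (hq : q ∈ Q₁) :
    el d q ∈ wr D₁ Q₁ := by
  refine ⟨fun x => ?_, hq⟩
  by_cases h : x = 1
  · rw [h, el_left_one]
    exact hd
  · rw [el_left_of_ne _ _ h]
    exact D₁.one_mem

theorem wr_mono {D₁ D₂ : Subgroup D} {Q₁ Q₂ : Subgroup Q} (hD : D₁ ≤ D₂) (hQ : Q₁ ≤ Q₂) :
    wr D₁ Q₁ ≤ wr D₂ Q₂ := fun _ hw => ⟨fun x => hD (hw.1 x), hQ hw.2⟩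

theorem wr_factor {K A B : Subgroup D} {K' A' B' : Subgroup Q}
    (h : ∀ k ∈ K, ∃ x ∈ A, ∃ y ∈ B, k = x * y) (h' : ∀ k ∈ K', ∃ x ∈ A', ∃ y ∈ B', k = x * y)
    {w : D ≀ᵣ Q} (hw : w ∈ wr K K') : ∃ x ∈ wr A A', ∃ y ∈ wr B B', w = x * y := by
  choose f hf g hg hfg using fun x => h (w.left x) (hw.1 x)
  obtain ⟨a, ha, b, hb, hab⟩ := h' _ hw.2
  refine ⟨⟨f, a⟩, ⟨hf, ha⟩, ⟨fun y => g (a * y), b⟩, ⟨fun y => hg _, hb⟩, ?_⟩
  refine RegularWreathProduct.ext ?_ hab
  funext x
  rw [mul_left, Pi.mul_apply]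
  change w.left x = f x * g (a * (a⁻¹ * x))
  rw [mul_inv_cancel_left, hfg]

end Wreath

/-- There is a factorized group `K = A B` with the exponents `p ^ c`, `p ^ a`, `p ^ b`. -/
def Fac (p a b c : ℕ) : Prop :=
  ∃ (H : Type) (_ : Group H) (_ : Finite H) (K A B : Subgroup H), A ≤ K ∧ B ≤ K ∧
    (∀ k ∈ K, ∃ x ∈ A, ∃ y ∈ B, k = x * y) ∧ (∀ x ∈ K, x ^ p ^ c = 1) ∧ (∀ x ∈ A, x ^ p ^ a = 1) ∧
    (∀ x ∈ B, x ^ p ^ b = 1) ∧ (∃ x ∈ K, p ^ c ∣ orderOf x) ∧ (∃ x ∈ A, p ^ a ∣ orderOf x) ∧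
    ∃ x ∈ B, p ^ b ∣ orderOf x

theorem Fac.wreath {p a b c a' b' c' : ℕ} (h : Fac p a b c) (h' : Fac p a' b' c') :
    Fac p (a + a') (b + b') (c + c') := by
  obtain ⟨H, _, _, K, A, B, hA, hB, hf, eK, eA, eB, ⟨x, hx, ox⟩, ⟨y, hy, oy⟩, z, hz, oz⟩ := h
  obtain ⟨H', _, _, K', A', B', hA', hB', hf', eK', eA', eB', ⟨x', hx', ox'⟩, ⟨y', hy', oy'⟩,
    z', hz', oz'⟩ := h'
  have ex : ∀ {D : Subgroup H} {Q : Subgroup H'} {m n : ℕ}, (∀ x ∈ D, x ^ p ^ m = 1) →
      (∀ x ∈ Q, x ^ p ^ n = 1) → ∀ w ∈ wr D Q, w ^ p ^ (m + n) = 1 := by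
    intro D Q m n h1 h2 w hw
    rw [pow_add, mul_comm]
    exact wr_pow_eq_one h1 h2 hw
  have oo : ∀ {d : H} {q : H'} {m n : ℕ}, p ^ m ∣ orderOf d → p ^ n ∣ orderOf q →
      p ^ (m + n) ∣ orderOf (el d q) := by
    intro d q m n h1 h2
    rw [pow_add, mul_comm]
    exact (mul_dvd_mul h2 h1).trans (orderOf_el d (orderOf_pos q))
  exact ⟨H ≀ᵣ H', inferInstance, inferInstance, wr K K', wr A A', wr B B', wr_mono hA hA',
    wr_mono hB hB', fun k hk => wr_factor hf hf' hk, ex eK eK', ex eA eA', ex eB eB',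
    ⟨_, el_mem hx hx', oo ox ox'⟩, ⟨_, el_mem hy hy', oo oy oy'⟩, _, el_mem hz hz', oo oz oz'⟩

theorem fac_zero (p : ℕ) : Fac p 0 0 0 :=
  ⟨Unit, inferInstance, inferInstance, ⊤, ⊤, ⊤, le_rfl, le_rfl,
    fun _ _ => ⟨1, trivial, 1, trivial, rfl⟩, fun _ _ => rfl, fun _ _ => rfl, fun _ _ => rfl,
    ⟨1, trivial, by simp⟩, ⟨1, trivial, by simp⟩, 1, trivial, by simp⟩

/-- The cyclic group of order `p`. -/
abbrev Z (p : ℕ) : Type := Multiplicative (ZMod p)

theorem pow_p {p : ℕ} (z : Z p) : z ^ p = 1 := by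
  apply Multiplicative.toAdd.injective
  rw [toAdd_pow, toAdd_one, nsmul_eq_mul, CharP.cast_eq_zero, zero_mul]

/-- The generator. -/
def gen (p : ℕ) : Z p := Multiplicative.ofAdd 1

theorem orderOf_gen {p : ℕ} : orderOf (gen p) = p := by
  rw [gen, orderOf_ofAdd_eq_addOrderOf, ZMod.addOrderOf_one]

theorem fac_left (p : ℕ) [Fact p.Prime] : Fac p 1 0 1 :=
  ⟨Z p, inferInstance, inferInstance, ⊤, ⊤, ⊥, le_rfl, bot_le,
    fun k _ => ⟨k, trivial, 1, Subgroup.one_mem _, (mul_one k).symm⟩,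
    fun x _ => by rw [pow_one]; exact pow_p x, fun x _ => by rw [pow_one]; exact pow_p x,
    fun x hx => by rw [Subgroup.mem_bot.1 hx, one_pow],
    ⟨gen p, trivial, by rw [orderOf_gen, pow_one]⟩, ⟨gen p, trivial, by rw [orderOf_gen, pow_one]⟩,
    1, Subgroup.one_mem _, by simp⟩

theorem fac_right (p : ℕ) [Fact p.Prime] : Fac p 0 1 1 :=
  ⟨Z p, inferInstance, inferInstance, ⊤, ⊥, ⊤, bot_le, le_rfl,
    fun k _ => ⟨1, Subgroup.one_mem _, k, trivial, (one_mul k).symm⟩,
    fun x _ => by rw [pow_one]; exact pow_p x,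
    fun x hx => by rw [Subgroup.mem_bot.1 hx, one_pow], fun x _ => by rw [pow_one]; exact pow_p x,
    ⟨gen p, trivial, by rw [orderOf_gen, pow_one]⟩,
    ⟨1, Subgroup.one_mem _, by simp⟩, gen p, trivial, by rw [orderOf_gen, pow_one]⟩

/-! ## The group with the exponents `p`, `p` and `p ^ 3` -/

section Seed

variable {p : ℕ} [Fact p.Prime]

theorem pow_left {D Q : Type} [CommGroup D] [Group Q] (w : D ≀ᵣ Q) (k : ℕ) (x : Q) :
    (w ^ k).left x = ∏ i ∈ range k, w.left (w.right⁻¹ ^ i * x) := by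
  induction k generalizing x with
  | zero => simp
  | succ k ih =>
    rw [pow_succ_left, ih, prod_range_succ', pow_zero, one_mul, mul_comm]
    refine congrArg (· * _) (prod_congr rfl fun i _ => ?_)
    rw [pow_succ, mul_assoc]

theorem gen_ne_one : gen p ≠ 1 := by
  intro h
  have h1 := orderOf_gen (p := p)
  rw [h, orderOf_one] at h1
  exact (Fact.out : p.Prime).one_lt.ne h1

theorem orderOf_of_ne_one {r : Z p} (h : r ≠ 1) : orderOf r = p :=
  orderOf_eq_prime (pow_p r) h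

theorem prod_orbit {M : Type} [CommMonoid M] {r : Z p} (h : r ≠ 1) (x : Z p) (F : Z p → M) :
    ∏ i ∈ range p, F (r ^ i * x) = ∏ z, F z := by
  have hinj : Set.InjOn (fun i : ℕ => r ^ i * x) (range p : Set ℕ) := by
    intro i hi j hj hij
    have h1 : r ^ i = r ^ j := mul_right_cancel hij
    rw [coe_range, Set.mem_Iio] at hi hj
    refine pow_injOn_Iio_orderOf ?_ ?_ h1
    · rw [orderOf_of_ne_one h]
      exact hi
    · rw [orderOf_of_ne_one h]
      exact hj
  have himg : (range p).image (fun i : ℕ => r ^ i * x) = univ := by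
    refine eq_univ_of_card _ ?_
    rw [card_image_of_injOn hinj, card_range, Fintype.card_multiplicative, ZMod.card]
  rw [← himg, prod_image hinj]

/-- The sum of the coordinates. -/
def sg (p : ℕ) [Fact p.Prime] : (Z p ≀ᵣ Z p) →* Z p where
  toFun y := ∏ x, y.left x
  map_one' := by simp
  map_mul' y z := by
    simp only [mul_left, Pi.mul_apply, prod_mul_distrib]
    exact congrArg (_ * ·) (Equiv.prod_comp (Equiv.mulLeft y.right⁻¹) z.left)

open Classical in
/-- The translation of the coordinate `j`. -/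
noncomputable def e (j : Z p) : Z p ≀ᵣ Z p := ⟨fun x => if x = j then gen p else 1, 1⟩

theorem e_mul (j : Z p) (g : Z p ≀ᵣ Z p) : e j * g = g * e (g.right⁻¹ * j) := by
  refine RegularWreathProduct.ext ?_ ?_
  · funext x
    rw [mul_left, mul_left, Pi.mul_apply, Pi.mul_apply, mul_comm]
    change g.left (1⁻¹ * x) * (if x = j then gen p else 1) =
      g.left x * (if g.right⁻¹ * x = g.right⁻¹ * j then gen p else 1)
    rw [inv_one, one_mul]
    by_cases h : x = j
    · rw [if_pos h, if_pos (by rw [h])]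
    · rw [if_neg h, if_neg (fun h' => h (mul_left_cancel h'))]
  · rw [mul_right, mul_right]
    change 1 * g.right = g.right * 1
    rw [one_mul, mul_one]

theorem mul_e (g : Z p ≀ᵣ Z p) (j : Z p) : g * e j = e (g.right * j) * g := by
  rw [e_mul, inv_mul_cancel_left]

/-- The functions which are affine in each coordinate. -/
noncomputable def V (p : ℕ) [Fact p.Prime] : Subgroup ((Z p ≀ᵣ Z p) → Z p) where
  carrier := {h | ∀ y j, h (e j * (e j * y)) * h y = h (e j * y) ^ 2}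
  mul_mem' := by
    intro h k hh hk y j
    simp only [Pi.mul_apply]
    rw [mul_pow, ← hh, ← hk]
    exact mul_mul_mul_comm _ _ _ _
  one_mem' := by
    intro y j
    simp
  inv_mem' := by
    intro h hh y j
    simp only [Pi.inv_apply]
    rw [inv_pow, ← hh, mul_inv]

theorem V_trans {h : (Z p ≀ᵣ Z p) → Z p} (hh : h ∈ V p) (g : Z p ≀ᵣ Z p) :
    (fun y => h (g * y)) ∈ V p := by
  intro y j
  have h1 : ∀ y, g * (e j * y) = e (g.right * j) * (g * y) := by
    intro y
    rw [← mul_assoc, mul_e, mul_assoc]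
  simp only [h1]
  exact hh _ _

theorem V_pow {h : (Z p ≀ᵣ Z p) → Z p} (hh : h ∈ V p) (y : Z p ≀ᵣ Z p) (j : Z p) (s : ℕ) :
    h (e j ^ s * y) = h y * (h (e j * y) * (h y)⁻¹) ^ s := by
  have key : ∀ s : ℕ, h (e j ^ (s + 1) * y) = h (e j ^ s * y) * (h (e j * y) * (h y)⁻¹) := by
    intro s
    induction s with
    | zero =>
      rw [zero_add, pow_one, pow_zero, one_mul, mul_comm (h (e j * y)), mul_inv_cancel_left]
    | succ s ih =>
      have h1 := hh (e j ^ s * y) j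
      rw [← mul_assoc (e j) (e j ^ s) y, ← pow_succ', ← mul_assoc (e j) (e j ^ (s + 1)) y,
        ← pow_succ'] at h1
      have h2 : h (e j ^ (s + 1 + 1) * y) = h (e j ^ (s + 1) * y) ^ 2 * (h (e j ^ s * y))⁻¹ := by
        rw [← h1, mul_inv_cancel_right]
      rw [h2, sq, mul_assoc]
      refine congrArg (_ * ·) ?_
      rw [ih, mul_comm (h (e j ^ s * y)), mul_inv_cancel_right]
  induction s with
  | zero => rw [pow_zero, pow_zero, one_mul, mul_one]
  | succ s ih => rw [key, ih, pow_succ, mul_assoc]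

/-- The group. -/
noncomputable def K (p : ℕ) [Fact p.Prime] : Subgroup (Z p ≀ᵣ (Z p ≀ᵣ Z p)) where
  carrier := {w | w.left ∈ V p}
  mul_mem' := by
    intro v w hv hw
    exact (V p).mul_mem hv (V_trans hw v.right⁻¹)
  one_mem' := (V p).one_mem
  inv_mem' := by
    intro v hv
    exact V_trans ((V p).inv_mem hv) v.right

/-- The first factor. -/
def A (p : ℕ) [Fact p.Prime] : Subgroup (Z p ≀ᵣ (Z p ≀ᵣ Z p)) := (sg p).ker.map inl

/-- The second factor. -/
noncomputable def B (p : ℕ) [Fact p.Prime] : Subgroup (Z p ≀ᵣ (Z p ≀ᵣ Z p)) :=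
  K p ⊓ (Subgroup.zpowers (e 1)).comap rightHom

theorem A_le : A p ≤ K p := by
  rintro _ ⟨a, _, rfl⟩
  exact (V p).one_mem

theorem sg_e : sg p (e 1) = gen p := by
  classical
  change ∏ x, (if x = 1 then gen p else 1) = gen p
  rw [prod_ite_eq' univ (1 : Z p) (fun _ => gen p), if_pos (mem_univ _)]

theorem K_factor {k : Z p ≀ᵣ (Z p ≀ᵣ Z p)} (hk : k ∈ K p) : ∃ x ∈ A p, ∃ y ∈ B p, k = x * y := by
  set n : ℕ := (Multiplicative.toAdd (sg p k.right)).val with hn
  set a : Z p ≀ᵣ Z p := k.right * (e 1 ^ n)⁻¹ with ha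
  have h1 : gen p ^ n = sg p k.right := by
    apply Multiplicative.toAdd.injective
    rw [toAdd_pow, gen, toAdd_ofAdd, nsmul_eq_mul, mul_one, hn, ZMod.natCast_zmod_val]
  refine ⟨inl a, ⟨a, ?_, rfl⟩, ⟨fun x => k.left (a * x), e 1 ^ n⟩, ⟨V_trans hk a, ?_⟩, ?_⟩
  · rw [SetLike.mem_coe, MonoidHom.mem_ker, ha, map_mul, map_inv, map_pow, sg_e, h1,
      mul_inv_cancel]
  · exact Subgroup.pow_mem _ (Subgroup.mem_zpowers _) n
  · refine RegularWreathProduct.ext ?_ ?_
    · funext x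
      rw [mul_left, left_inl, one_mul, right_inl]
      change k.left x = k.left (a * (a⁻¹ * x))
      rw [mul_inv_cancel_left]
    · rw [mul_right, right_inl]
      change k.right = a * e 1 ^ n
      rw [ha, inv_mul_cancel_right]

theorem G0_pow (y : Z p ≀ᵣ Z p) : y ^ (p * p) = 1 :=
  wr_pow_eq_one (D₁ := ⊤) (Q₁ := ⊤) (fun d _ => pow_p d) (fun q _ => pow_p q)
    ⟨fun _ => trivial, trivial⟩

theorem K_pow (w : Z p ≀ᵣ (Z p ≀ᵣ Z p)) : w ^ p ^ 3 = 1 := by
  have h := wr_pow_eq_one (D₁ := (⊤ : Subgroup (Z p))) (Q₁ := (⊤ : Subgroup (Z p ≀ᵣ Z p)))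
    (w := w) (fun d _ => pow_p d) (fun q _ => G0_pow q) ⟨fun _ => trivial, trivial⟩
  have h1 : p ^ 3 = p * p * p := by ring
  rw [h1]
  exact h

theorem A0_pow {a : Z p ≀ᵣ Z p} (ha : sg p a = 1) : a ^ p = 1 := by
  refine RegularWreathProduct.ext ?_ ?_
  · funext x
    rw [pow_left]
    by_cases h : a.right = 1
    · simp only [h, inv_one, one_pow, one_mul, prod_const, card_range]
      exact pow_p _
    · rw [prod_orbit (fun h' => h (inv_eq_one.1 h')) x a.left]
      exact ha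
  · rw [pow_right]
    exact pow_p _

theorem A_pow {x : Z p ≀ᵣ (Z p ≀ᵣ Z p)} (hx : x ∈ A p) : x ^ p = 1 := by
  obtain ⟨a, ha, rfl⟩ := hx
  rw [← map_pow, A0_pow ha, map_one]

theorem e_pow (j : Z p) : (e j) ^ p = 1 := by
  refine RegularWreathProduct.ext ?_ ?_
  · funext x
    rw [pow_left_of_right_eq_one rfl]
    exact pow_p _
  · rw [pow_right]
    exact pow_p _

theorem B_pow (hp : p ≠ 2) {x : Z p ≀ᵣ (Z p ≀ᵣ Z p)} (hx : x ∈ B p) : x ^ p = 1 := by
  have hx2 : x.right ∈ Subgroup.zpowers (e (1 : Z p)) := hx.2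
  refine RegularWreathProduct.ext ?_ ?_
  · funext y
    rw [pow_left]
    have h1 : x.right⁻¹ ∈ Submonoid.powers (e (1 : Z p)) := by
      refine (IsOfFinOrder.mem_powers_iff_mem_zpowers ?_).2 (Subgroup.inv_mem _ hx2)
      exact isOfFinOrder_iff_pow_eq_one.2 ⟨p, (Fact.out : p.Prime).pos, e_pow 1⟩
    obtain ⟨t, ht⟩ := h1
    have ht' : e (1 : Z p) ^ t = x.right⁻¹ := ht
    rw [← ht']
    have h2 : ∀ i ∈ range p, x.left ((e (1 : Z p) ^ t) ^ i * y) =
        x.left y * (x.left (e 1 * y) * (x.left y)⁻¹) ^ (t * i) := by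
      intro i _
      rw [← pow_mul, V_pow hx.1]
    rw [prod_congr rfl h2, prod_mul_distrib, prod_const, card_range, pow_p, one_mul,
      prod_pow_eq_pow_sum, ← mul_sum]
    obtain ⟨k, hk⟩ := (Fact.out : p.Prime).odd_of_ne_two hp
    have h3 : ∑ i ∈ range p, i = p * k := by
      have h4 := sum_range_id_mul_two p
      have h5 : p - 1 = 2 * k := by omega
      rw [h5] at h4
      have h6 : (∑ i ∈ range p, i) * 2 = (p * k) * 2 := by rw [h4]; ring
      exact Nat.eq_of_mul_eq_mul_right (by norm_num) h6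
    rw [h3, mul_left_comm, pow_mul, pow_p, one_pow]
    rfl
  · rw [pow_right]
    obtain ⟨n, hn⟩ := hx2
    have hn' : e (1 : Z p) ^ n = x.right := hn
    rw [← hn', ← zpow_natCast, ← zpow_mul, mul_comm, zpow_mul, zpow_natCast, e_pow, one_zpow]
    rfl

open Classical in
/-- The product of all coordinates except one, at the places with second coordinate `1`. -/
noncomputable def h0 (p : ℕ) [Fact p.Prime] (y : Z p ≀ᵣ Z p) : Z p :=
  if y.right = 1 then
    Multiplicative.ofAdd (∏ x ∈ univ.erase (1 : Z p), Multiplicative.toAdd (y.left x)) else 1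

theorem toAdd_e_mul (j : Z p) (y : Z p ≀ᵣ Z p) (x : Z p) [Decidable (x = j)] :
    Multiplicative.toAdd ((e j * y).left x) =
      (if x = j then 1 else 0) + Multiplicative.toAdd (y.left x) := by
  rw [mul_left, Pi.mul_apply, toAdd_mul]
  have h1 : (e j).right⁻¹ * x = x := by
    change (1 : Z p)⁻¹ * x = x
    rw [inv_one, one_mul]
  rw [h1]
  refine congrArg (· + _) ?_
  by_cases h : x = j
  · rw [if_pos h]
    simp only [e, if_pos h]
    rfl
  · rw [if_neg h]
    simp only [e, if_neg h]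
    rfl

theorem h0_mem : h0 p ∈ V p := by
  classical
  intro y j
  have hr : (e j * y).right = y.right := one_mul _
  have hr2 : (e j * (e j * y)).right = y.right := by
    rw [mul_right, hr]
    exact one_mul _
  by_cases hy : y.right = 1
  · have a1 : h0 p y = Multiplicative.ofAdd
        (∏ x ∈ univ.erase (1 : Z p), Multiplicative.toAdd (y.left x)) := if_pos hy
    have a2 : h0 p (e j * y) = Multiplicative.ofAdd
        (∏ x ∈ univ.erase (1 : Z p), Multiplicative.toAdd ((e j * y).left x)) :=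
      if_pos (hr.trans hy)
    have a3 : h0 p (e j * (e j * y)) = Multiplicative.ofAdd
        (∏ x ∈ univ.erase (1 : Z p), Multiplicative.toAdd ((e j * (e j * y)).left x)) :=
      if_pos (hr2.trans hy)
    rw [a1, a2, a3]
    apply Multiplicative.toAdd.injective
    rw [toAdd_mul, toAdd_pow, toAdd_ofAdd, toAdd_ofAdd, toAdd_ofAdd, nsmul_eq_mul]
    simp only [toAdd_e_mul]
    by_cases hj : j = 1
    · have h1 : ∀ x ∈ univ.erase (1 : Z p), x ≠ j := fun x hx => by
        rw [hj]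
        exact (mem_erase.1 hx).1
      have q1 : ∏ x ∈ univ.erase (1 : Z p), ((if x = j then (1 : ZMod p) else 0) +
          ((if x = j then 1 else 0) + Multiplicative.toAdd (y.left x))) =
          ∏ x ∈ univ.erase (1 : Z p), Multiplicative.toAdd (y.left x) :=
        prod_congr rfl fun x hx => by rw [if_neg (h1 x hx), zero_add, zero_add]
      have q2 : ∏ x ∈ univ.erase (1 : Z p), ((if x = j then (1 : ZMod p) else 0) +
          Multiplicative.toAdd (y.left x)) =
          ∏ x ∈ univ.erase (1 : Z p), Multiplicative.toAdd (y.left x) :=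
        prod_congr rfl fun x hx => by rw [if_neg (h1 x hx), zero_add]
      rw [q1, q2]
      push_cast
      ring
    · have h1 : j ∈ univ.erase (1 : Z p) := mem_erase.2 ⟨hj, mem_univ _⟩
      rw [← mul_prod_erase _ _ h1, ← mul_prod_erase _ _ h1, ← mul_prod_erase _ _ h1, if_pos rfl]
      have h2 : ∀ x ∈ (univ.erase (1 : Z p)).erase j, x ≠ j := fun x hx => (mem_erase.1 hx).1
      have q1 : ∏ x ∈ (univ.erase (1 : Z p)).erase j, ((if x = j then (1 : ZMod p) else 0) +
          ((if x = j then 1 else 0) + Multiplicative.toAdd (y.left x))) =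
          ∏ x ∈ (univ.erase (1 : Z p)).erase j, Multiplicative.toAdd (y.left x) :=
        prod_congr rfl fun x hx => by rw [if_neg (h2 x hx), zero_add, zero_add]
      have q2 : ∏ x ∈ (univ.erase (1 : Z p)).erase j, ((if x = j then (1 : ZMod p) else 0) +
          Multiplicative.toAdd (y.left x)) =
          ∏ x ∈ (univ.erase (1 : Z p)).erase j, Multiplicative.toAdd (y.left x) :=
        prod_congr rfl fun x hx => by rw [if_neg (h2 x hx), zero_add]
      rw [q1, q2]
      push_cast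
      ring
  · have a1 : h0 p y = 1 := if_neg hy
    have a2 : h0 p (e j * y) = 1 := if_neg (fun h => hy (hr.symm.trans h))
    have a3 : h0 p (e j * (e j * y)) = 1 := if_neg (fun h => hy (hr2.symm.trans h))
    rw [a1, a2, a3]
    simp

/-- The element of order `p ^ 2`. -/
noncomputable def g0 (p : ℕ) [Fact p.Prime] : Z p ≀ᵣ Z p := el (gen p) (gen p)

theorem g0_pow_left (x : Z p) : (g0 p ^ p).left x = gen p := by
  classical
  rw [pow_left]
  have h1 : (g0 p).right⁻¹ ≠ 1 := fun h => gen_ne_one (inv_eq_one.1 h)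
  rw [prod_orbit h1 x (g0 p).left]
  have h2 : ∀ z ∈ (univ : Finset (Z p)), (g0 p).left z = if z = 1 then gen p else 1 := by
    intro z _
    by_cases h : z = 1
    · rw [if_pos h, h]
      exact el_left_one _ _
    · rw [if_neg h]
      exact el_left_of_ne _ _ h
  rw [prod_congr rfl h2, prod_ite_eq' univ (1 : Z p) (fun _ => gen p), if_pos (mem_univ _)]

theorem g0_pow_right : (g0 p ^ p).right = 1 := by
  rw [pow_right]
  exact pow_p _

theorem y_right (m : ℕ) : (((g0 p ^ p)⁻¹) ^ m).right = 1 := by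
  rw [pow_right, inv_right, g0_pow_right, inv_one, one_pow]

theorem y_left (m : ℕ) (x : Z p) :
    Multiplicative.toAdd ((((g0 p ^ p)⁻¹) ^ m).left x) = -(m : ZMod p) := by
  have h1 : ((g0 p ^ p)⁻¹).right = 1 := by rw [inv_right, g0_pow_right, inv_one]
  rw [pow_left_of_right_eq_one h1, inv_left]
  have h2 : (g0 p ^ p).left⁻¹ ((g0 p ^ p).right * x) = (gen p)⁻¹ := by
    rw [Pi.inv_apply, g0_pow_left]
  simp only [h2]
  rw [toAdd_pow, toAdd_inv, gen, toAdd_ofAdd, nsmul_eq_mul, mul_neg, mul_one]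

theorem h0_y (m : ℕ) : Multiplicative.toAdd (h0 p (((g0 p ^ p)⁻¹) ^ m)) =
    (-(m : ZMod p)) ^ (p - 1) := by
  classical
  have a1 : h0 p (((g0 p ^ p)⁻¹) ^ m) = Multiplicative.ofAdd (∏ x ∈ univ.erase (1 : Z p),
      Multiplicative.toAdd ((((g0 p ^ p)⁻¹) ^ m).left x)) := if_pos (y_right m)
  rw [a1, toAdd_ofAdd]
  simp only [y_left]
  rw [prod_const, card_erase_of_mem (mem_univ _), card_univ, Fintype.card_multiplicative,
    ZMod.card]

/-- The element of order `p ^ 3`. -/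
noncomputable def w0 (p : ℕ) [Fact p.Prime] : Z p ≀ᵣ (Z p ≀ᵣ Z p) := ⟨h0 p, g0 p⟩

theorem w0_pow_left (m : ℕ) : (w0 p ^ p).left (((g0 p ^ p)⁻¹) ^ m) =
    h0 p (((g0 p ^ p)⁻¹) ^ m) := by
  rw [pow_left]
  change ∏ i ∈ range p, h0 p ((g0 p)⁻¹ ^ i * ((g0 p ^ p)⁻¹) ^ m) = _
  have hp := (Fact.out : p.Prime).pos
  rw [prod_eq_single_of_mem 0 (mem_range.2 hp), pow_zero, one_mul]
  intro i hi hi0
  refine if_neg ?_
  rw [mul_right, y_right, mul_one, pow_right, inv_right, inv_pow, inv_eq_one]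
  refine pow_ne_one_of_lt_orderOf hi0 ?_
  rw [show (g0 p).right = gen p from rfl, orderOf_gen]
  exact mem_range.1 hi

theorem sum_pow (p : ℕ) [Fact p.Prime] :
    ∑ m ∈ range p, (-(m : ZMod p)) ^ (p - 1) = -1 := by
  obtain ⟨q, hq⟩ := Nat.exists_eq_succ_of_ne_zero (Fact.out : p.Prime).ne_zero
  have hq0 : q ≠ 0 := by
    have := (Fact.out : p.Prime).one_lt
    omega
  have h1 : ∀ m ∈ range p, (-(m : ZMod p)) ^ (p - 1) = if m = 0 then 0 else 1 := by
    intro m hm
    by_cases h : m = 0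
    · rw [if_pos h, h, Nat.cast_zero, neg_zero, zero_pow]
      omega
    · rw [if_neg h]
      refine ZMod.pow_card_sub_one_eq_one ?_
      rw [Ne, neg_eq_zero, ZMod.natCast_eq_zero_iff]
      intro h'
      exact absurd (Nat.le_of_dvd (Nat.pos_of_ne_zero h) h') (not_le.2 (mem_range.1 hm))
  rw [sum_congr rfl h1]
  have h2 : ∀ n : ℕ, ∑ m ∈ range (n + 1), (if m = 0 then (0 : ZMod p) else 1) = n := by
    intro n
    rw [sum_range_succ', if_pos rfl, add_zero]
    simp
  have h3 : ((q : ℕ) : ZMod p) = ((p : ℕ) : ZMod p) - 1 := by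
    have h5 : (((q + 1 : ℕ) : ℕ) : ZMod p) = ((p : ℕ) : ZMod p) := congrArg _ hq.symm
    rw [← h5]
    push_cast
    ring
  have h4 : ∑ m ∈ range p, (if m = 0 then (0 : ZMod p) else 1) = q := by
    have := h2 q
    rwa [show q + 1 = p from hq.symm] at this
  rw [h4, h3, CharP.cast_eq_zero, zero_sub]

theorem w0_pow_ne : w0 p ^ p ^ 2 ≠ 1 := by
  intro h
  have h1 : ((w0 p ^ p) ^ p).left 1 = 1 := by
    rw [← pow_mul, ← sq, h]
    rfl
  rw [pow_left] at h1
  have h2 : (w0 p ^ p).right = g0 p ^ p := pow_right _ _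
  rw [h2] at h1
  simp only [mul_one, w0_pow_left] at h1
  have h3 := congrArg Multiplicative.toAdd h1
  rw [toAdd_prod, toAdd_one] at h3
  simp only [h0_y] at h3
  rw [sum_pow, neg_eq_zero] at h3
  exact one_ne_zero h3

theorem w0_order : p ^ 3 ∣ orderOf (w0 p) := by
  rw [orderOf_eq_prime_pow (n := 2) w0_pow_ne (K_pow _)]

theorem fac_seed (hp : p ≠ 2) : Fac p 1 1 3 := by
  have oo : ∀ {x : Z p ≀ᵣ (Z p ≀ᵣ Z p)}, x ^ p = 1 → x ≠ 1 → p ^ 1 ∣ orderOf x := by
    intro x h1 h2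
    rw [orderOf_eq_prime h1 h2, pow_one]
  have ha : inl (inl (gen p)) ∈ A p := ⟨inl (gen p), by
    rw [SetLike.mem_coe, MonoidHom.mem_ker]
    change ∏ x : Z p, (inl (gen p) : Z p ≀ᵣ Z p).left x = 1
    rw [left_inl]
    simp, rfl⟩
  have hb : inl (e 1) ∈ B p := ⟨(V p).one_mem, Subgroup.mem_zpowers _⟩
  refine ⟨Z p ≀ᵣ (Z p ≀ᵣ Z p), inferInstance, inferInstance, K p, A p, B p, A_le, inf_le_left,
    fun k hk => K_factor hk, fun x _ => K_pow x, fun x hx => by rw [pow_one]; exact A_pow hx,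
    fun x hx => by rw [pow_one]; exact B_pow hp hx, ⟨w0 p, h0_mem, w0_order⟩,
    ⟨_, ha, oo (A_pow ha) ?_⟩, _, hb, oo (B_pow hp hb) ?_⟩
  · intro h
    have h1 := congrArg (fun w => w.right.right) h
    exact gen_ne_one h1
  · intro h
    have h1 : (e (1 : Z p)).left 1 = 1 := congrArg (fun w => w.right.left 1) h
    simp only [e] at h1
    exact gen_ne_one h1

end Seed

theorem fac_all {p : ℕ} [Fact p.Prime] (hp : p ≠ 2) (a b : ℕ) : Fac p a b (a + b + min a b) := by
  have h1 : ∀ a, Fac p a 0 a := by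
    intro a
    induction a with
    | zero => exact fac_zero p
    | succ a ih => exact ih.wreath (fac_left p)
  have h2 : ∀ b, Fac p 0 b b := by
    intro b
    induction b with
    | zero => exact fac_zero p
    | succ b ih => exact ih.wreath (fac_right p)
  have h3 : ∀ m, Fac p m m (3 * m) := by
    intro m
    induction m with
    | zero => exact fac_zero p
    | succ m ih => exact ih.wreath (fac_seed hp)
  rcases le_total a b with h | h
  · have h4 := (h3 a).wreath (h2 (b - a))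
    rw [min_eq_left h]
    have e1 : a + 0 = a := rfl
    have e2 : a + (b - a) = b := by omega
    have e3 : 3 * a + (b - a) = a + b + a := by omega
    rwa [e1, e2, e3] at h4
  · have h4 := (h3 b).wreath (h1 (a - b))
    rw [min_eq_right h]
    have e1 : b + 0 = b := rfl
    have e2 : b + (a - b) = a := by omega
    have e3 : 3 * b + (a - b) = a + b + b := by omega
    rwa [e1, e2, e3] at h4

/-- For every odd prime `p` and all `a`, `b` there is a finite `p`-group `G = A B` with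
`exp A = p ^ a`, `exp B = p ^ b` and `exp G = p ^ (a + b + min a b)`. -/
theorem result (p : ℕ) (hp : p.Prime) (hp2 : p ≠ 2) (a b : ℕ) :
    ∃ (G : Type) (_ : Group G) (_ : Finite G) (A B : Subgroup G), IsPGroup p G ∧
      (∀ g : G, ∃ x ∈ A, ∃ y ∈ B, g = x * y) ∧ Monoid.exponent A = p ^ a ∧
      Monoid.exponent B = p ^ b ∧ Monoid.exponent G = p ^ (a + b + min a b) := by
  have : Fact p.Prime := ⟨hp⟩
  obtain ⟨H, _, _, K, A, B, hA, hB, hf, eK, eA, eB, ⟨x, hx, ox⟩, ⟨y, hy, oy⟩, z, hz, oz⟩ :=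
    fac_all hp2 a b
  have ee : ∀ {S : Subgroup H} {n : ℕ} {x : H}, x ∈ S → p ^ n ∣ orderOf x →
      (∀ y ∈ S, y ^ p ^ n = 1) → Monoid.exponent S = p ^ n := by
    intro S n x hx h1 h2
    refine Nat.dvd_antisymm ?_ ?_
    · refine Monoid.exponent_dvd_of_forall_pow_eq_one fun y => ?_
      exact Subtype.ext (h2 y.1 y.2)
    · refine h1.trans ?_
      have h3 := Monoid.order_dvd_exponent (⟨x, hx⟩ : S)
      rwa [Subgroup.orderOf_mk] at h3
  refine ⟨K, inferInstance, inferInstance, A.subgroupOf K, B.subgroupOf K, ?_, ?_, ?_, ?_,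
    ee hx ox eK⟩
  · intro g
    exact ⟨a + b + min a b, Subtype.ext (eK g.1 g.2)⟩
  · intro g
    obtain ⟨u, hu, v, hv, huv⟩ := hf g.1 g.2
    exact ⟨⟨u, hA hu⟩, hu, ⟨v, hB hv⟩, hv, Subtype.ext huv⟩
  · rw [Monoid.exponent_eq_of_mulEquiv (Subgroup.subgroupOfEquivOfLe hA)]
    exact ee hy oy eA
  · rw [Monoid.exponent_eq_of_mulEquiv (Subgroup.subgroupOfEquivOfLe hB)]
    exact ee hz oz eB

end Pool.Agent.Results.MP_87fd0b_al.CubicLowerBound
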