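import Mathlib

/-!
# The exponent of a product of two subgroups and the derived length

`G = A B` a group, `A` and `B` of exponents dividing `e` and `f`, with all two-generator subgroups
of `A` and of `B` of derived length at most `d`. Then every normal subgroup `N` of `G` of derived
length at most `s` has an exponent which is bounded in terms of `e`, `f`, `d`, `s`.

The idea. Let `N` be abelian, `m ∈ N`, `m = a₁ b₁⁻¹`, `m² = a₂ b₂⁻¹`. The group `K` generated by
`x = (a₁, b₁)` and `y = (a₂, b₂)` is finite, of bounded order, and `δ (a, b) = a b⁻¹` maps `K` to `N`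
with `2 δ (g x) = δ g + δ (g y)` for all `g ∈ K`. A real function with this property is constant
(parallelogram law), so the integral linear system has a non-zero determinant `D`, `|D| ≤ 5 ^ |K|`,
and `D δ = 0`.
-/

set_option autoImplicit false

namespace Pool.Agent.Results.MP_87fd0b_al.DerivedLength

open Subgroup

universe u

/-! ## The matrix -/

section Mat

variable {H : Type*} [Group H] [Fintype H] [DecidableEq H]

/-- the matrix of the system `v g - 2 v (g x) + v (g y) + v 1 = 0` -/
def mat (x y : H) : Matrix H H ℤ := Matrix.of fun g k =>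
  (if k = g then 1 else 0) - 2 * (if k = g * x then 1 else 0) + (if k = g * y then 1 else 0) +
    (if k = 1 then 1 else 0)

theorem mat_smul {M : Type*} [AddCommGroup M] (x y : H) (v : H → M) (g : H) :
    ∑ k, mat x y g k • v k = v g - (2 : ℤ) • v (g * x) + v (g * y) + v 1 := by
  have h : ∀ k, mat x y g k • v k = (if k = g then v k else 0) -
      (2 : ℤ) • (if k = g * x then v k else 0) + (if k = g * y then v k else 0) +
      (if k = 1 then v k else 0) := by
    intro k
    show ((if k = g then (1 : ℤ) else 0) - 2 * (if k = g * x then 1 else 0) +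
      (if k = g * y then 1 else 0) + (if k = 1 then 1 else 0)) • v k = _
    rw [add_smul, add_smul, sub_smul, mul_smul]
    simp only [ite_smul, one_smul, zero_smul]
  rw [Finset.sum_congr rfl fun k _ => h k]
  rw [Finset.sum_add_distrib, Finset.sum_add_distrib, Finset.sum_sub_distrib, ← Finset.smul_sum]
  rw [Finset.sum_ite_eq' Finset.univ g, Finset.sum_ite_eq' Finset.univ (g * x),
    Finset.sum_ite_eq' Finset.univ (g * y), Finset.sum_ite_eq' Finset.univ (1 : H)]
  simp only [Finset.mem_univ, if_true]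

omit [DecidableEq H] in
theorem sum_right {M : Type*} [AddCommMonoid M] (x : H) (v : H → M) :
    ∑ g, v (g * x) = ∑ g, v g := Equiv.sum_comp (Equiv.mulRight x) v

omit [DecidableEq H] in
/-- the kernel is trivial -/
theorem ker_mat (x y : H) (hxy : closure ({x, y} : Set H) = ⊤) (v : H → ℤ)
    (hv : ∀ g, v g - 2 * v (g * x) + v (g * y) + v 1 = 0) : v = 0 := by
  have h1 : v 1 = 0 := by
    have h2 : ∑ g : H, (v g - 2 * v (g * x) + v (g * y) + v 1) = 0 :=
      Finset.sum_eq_zero fun g _ => hv g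
    rw [Finset.sum_add_distrib, Finset.sum_add_distrib, Finset.sum_sub_distrib, ← Finset.mul_sum,
      sum_right, sum_right, Finset.sum_const, nsmul_eq_mul] at h2
    have h3 : ((Finset.univ : Finset H).card : ℤ) * v 1 = 0 := by linarith
    rcases mul_eq_zero.mp h3 with h4 | h4
    · exfalso
      have h5 : (Finset.univ : Finset H).card = 0 := by exact_mod_cast h4
      rw [Finset.card_eq_zero] at h5
      exact Finset.univ_nonempty.ne_empty h5
    · exact h4
  have h2 : ∀ g, 2 * v (g * x) = v g + v (g * y) := by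
    intro g
    have := hv g
    rw [h1] at this
    linarith
  have h3 : ∑ g, (v g - v (g * y)) ^ 2 = 0 := by
    have h4 : ∀ g, (v g - v (g * y)) ^ 2 = 2 * v g ^ 2 + 2 * v (g * y) ^ 2 - 4 * v (g * x) ^ 2 := by
      intro g
      have h5 : 4 * v (g * x) ^ 2 = (v g + v (g * y)) ^ 2 := by
        rw [← h2 g]
        ring
      rw [h5]
      ring
    rw [Finset.sum_congr rfl fun g _ => h4 g]
    rw [Finset.sum_sub_distrib, Finset.sum_add_distrib, ← Finset.mul_sum, ← Finset.mul_sum,
      ← Finset.mul_sum, sum_right x (fun g => v g ^ 2), sum_right y (fun g => v g ^ 2)]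
    ring
  have h4 : ∀ g, v (g * y) = v g := by
    intro g
    have h5 := (Finset.sum_eq_zero_iff_of_nonneg (fun g _ => sq_nonneg (v g - v (g * y)))).mp h3 g
      (Finset.mem_univ g)
    have h6 := pow_eq_zero_iff (two_ne_zero) |>.mp h5
    linarith
  have h5 : ∀ g, v (g * x) = v g := by
    intro g
    have := h2 g
    rw [h4 g] at this
    linarith
  let T : Subgroup H :=
    { carrier := {t | ∀ g, v (g * t) = v g}
      mul_mem' := by
        intro a b ha hb g
        rw [← mul_assoc]
        exact (hb (g * a)).trans (ha g)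
      one_mem' := by
        intro g
        rw [mul_one]
      inv_mem' := by
        intro a ha g
        have := ha (g * a⁻¹)
        rw [inv_mul_cancel_right] at this
        exact this.symm }
  have h6 : (⊤ : Subgroup H) ≤ T := by
    rw [← hxy, closure_le]
    intro t ht
    rcases ht with ht | ht
    · rw [ht]
      exact h5
    · rw [Set.mem_singleton_iff] at ht
      rw [ht]
      exact h4
  funext g
  have h7 : g ∈ T := h6 (mem_top g)
  have h8 := h7 1
  rw [one_mul] at h8
  rw [h8, h1]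
  rfl

theorem det_mat_ne (x y : H) (hxy : closure ({x, y} : Set H) = ⊤) : (mat x y).det ≠ 0 := by
  intro h
  obtain ⟨v, hv0, hv⟩ := Matrix.exists_mulVec_eq_zero_iff.mpr h
  apply hv0
  apply ker_mat x y hxy v
  intro g
  have h1 := congrFun hv g
  have h2 := mat_smul x y v g
  have h3 : ∑ k, mat x y g k • v k = 0 := h1
  rw [h3, smul_eq_mul] at h2
  exact h2.symm

omit [Group H] in
/-- the determinant is at most the product of the `l¹` norms of the rows -/
theorem det_le_prod (M : Matrix H H ℤ) : |M.det| ≤ ∏ i, ∑ j, |M i j| := by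
  rw [← Matrix.det_transpose, Matrix.det_apply]
  refine (Finset.abs_sum_le_sum_abs _ _).trans ?_
  have h1 : ∀ σ : Equiv.Perm H, |Equiv.Perm.sign σ • ∏ i, M.transpose (σ i) i| =
      ∏ i, |M i (σ i)| := by
    intro σ
    rw [Units.smul_def, smul_eq_mul, abs_mul, Finset.abs_prod]
    have h2 : |((Equiv.Perm.sign σ : ℤˣ) : ℤ)| = 1 := by
      rcases Int.units_eq_one_or (Equiv.Perm.sign σ) with h | h
      · rw [h]
        rfl
      · rw [h]
        rfl
    rw [h2, one_mul]
    rfl
  rw [Finset.sum_congr rfl fun σ _ => h1 σ]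
  rw [Finset.prod_univ_sum]
  let emb : Equiv.Perm H ↪ (H → H) := ⟨fun σ i => σ i, fun σ τ h => Equiv.ext (congrFun h)⟩
  have h3 : ∑ σ : Equiv.Perm H, ∏ i, |M i (σ i)| =
      ∑ f ∈ (Finset.univ : Finset (Equiv.Perm H)).map emb, ∏ i, |M i (f i)| := by
    rw [Finset.sum_map]
    rfl
  rw [h3]
  refine Finset.sum_le_sum_of_subset_of_nonneg ?_ ?_
  · intro f _
    rw [Fintype.mem_piFinset]
    intro i
    exact Finset.mem_univ _
  · intro f _ _
    exact Finset.prod_nonneg fun i _ => abs_nonneg _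

theorem det_mat_le (x y : H) : (mat x y).det.natAbs ≤ 5 ^ Fintype.card H := by
  have h1 : |(mat x y).det| ≤ 5 ^ Fintype.card H := by
    refine (det_le_prod _).trans ?_
    have h2 : ∏ _i : H, (5 : ℤ) = 5 ^ Fintype.card H := by
      rw [Finset.prod_const, Finset.card_univ]
    rw [← h2]
    refine Finset.prod_le_prod (fun i _ => Finset.sum_nonneg fun j _ => abs_nonneg _) ?_
    intro g _
    have h3 : ∀ k, |mat x y g k| ≤ (if k = g then 1 else 0) + 2 * (if k = g * x then 1 else 0) +
        (if k = g * y then 1 else 0) + (if k = 1 then 1 else 0) := by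
      intro k
      show |(if k = g then (1 : ℤ) else 0) - 2 * (if k = g * x then 1 else 0) +
        (if k = g * y then 1 else 0) + (if k = 1 then 1 else 0)| ≤ _
      split_ifs <;> norm_num
    refine (Finset.sum_le_sum fun k _ => h3 k).trans ?_
    rw [Finset.sum_add_distrib, Finset.sum_add_distrib, Finset.sum_add_distrib, ← Finset.mul_sum]
    rw [Finset.sum_ite_eq' Finset.univ g, Finset.sum_ite_eq' Finset.univ (g * x),
      Finset.sum_ite_eq' Finset.univ (g * y), Finset.sum_ite_eq' Finset.univ (1 : H)]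
    simp only [Finset.mem_univ, if_true]
    norm_num
  have h2 : (((mat x y).det.natAbs : ℕ) : ℤ) ≤ ((5 ^ Fintype.card H : ℕ) : ℤ) := by
    rw [Int.natCast_natAbs]
    push_cast
    exact h1
  exact_mod_cast h2

theorem core {M : Type*} [AddCommGroup M] (x y : H) (hxy : closure ({x, y} : Set H) = ⊤)
    (δ : H → M) (h1 : δ 1 = 0) (hδ : ∀ g, δ g + δ (g * y) = 2 • δ (g * x)) :
    ∃ D : ℕ, 0 < D ∧ D ≤ 5 ^ Fintype.card H ∧ ∀ g, D • δ g = 0 := by
  refine ⟨(mat x y).det.natAbs, Int.natAbs_pos.mpr (det_mat_ne x y hxy), det_mat_le x y, ?_⟩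
  have h2 : ∀ g, ∑ k, mat x y g k • δ k = 0 := by
    intro g
    rw [mat_smul, h1, add_zero]
    have h3 := hδ g
    have h4 : (2 : ℤ) • δ (g * x) = 2 • δ (g * x) := by
      rw [two_smul, two_smul]
    rw [h4, ← h3]
    abel
  have h3 : ∀ g, (mat x y).det • δ g = 0 := by
    intro g
    have h4 : ∀ k, ((mat x y).adjugate * mat x y) g k =
        if k = g then (mat x y).det else 0 := by
      intro k
      rw [Matrix.adjugate_mul, Matrix.smul_apply, Matrix.one_apply]
      by_cases hk : k = g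
      · rw [if_pos hk, if_pos hk.symm, smul_eq_mul, mul_one]
      · rw [if_neg hk, if_neg (fun h => hk h.symm), smul_zero]
    have h5 : ∑ k, ((mat x y).adjugate * mat x y) g k • δ k = (mat x y).det • δ g := by
      have h6 : ∀ k, ((mat x y).adjugate * mat x y) g k • δ k =
          if k = g then (mat x y).det • δ k else 0 := by
        intro k
        rw [h4 k, ite_smul, zero_smul]
      rw [Finset.sum_congr rfl fun k _ => h6 k, Finset.sum_ite_eq' Finset.univ g]
      simp only [Finset.mem_univ, if_true]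
    rw [← h5]
    have h7 : ∀ k, ((mat x y).adjugate * mat x y) g k • δ k =
        ∑ j, (mat x y).adjugate g j • (mat x y j k • δ k) := by
      intro k
      rw [Matrix.mul_apply, Finset.sum_smul]
      refine Finset.sum_congr rfl fun j _ => ?_
      rw [mul_smul]
    rw [Finset.sum_congr rfl fun k _ => h7 k, Finset.sum_comm]
    refine Finset.sum_eq_zero fun j _ => ?_
    rw [← Finset.smul_sum, h2 j, smul_zero]
  intro g
  rcases Int.natAbs_eq (mat x y).det with h | h
  · have h8 := h3 g
    rw [h, natCast_zsmul] at h8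
    exact h8
  · have h8 := h3 g
    rw [h, neg_smul, natCast_zsmul, neg_eq_zero] at h8
    exact h8

end Mat

/-! ## Abelian normal subgroups -/

section Ab

variable {G : Type u} [Group G]

theorem abelian_case (A B N : Subgroup G) (hN : N.Normal) (nA nB : ℕ)
    (hAB : ∀ g : G, ∃ a ∈ A, ∃ b ∈ B, g = a * b)
    (hA : ∀ x ∈ A, ∀ y ∈ A, Finite (closure ({x, y} : Set G)) ∧
      Nat.card (closure ({x, y} : Set G)) ≤ nA)
    (hB : ∀ x ∈ B, ∀ y ∈ B, Finite (closure ({x, y} : Set G)) ∧
      Nat.card (closure ({x, y} : Set G)) ≤ nB)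
    (hc : ∀ x ∈ N, ∀ y ∈ N, x * y = y * x) (m : G) (hm : m ∈ N) :
    ∃ D : ℕ, 0 < D ∧ D ≤ 5 ^ (nA * nB) ∧ m ^ D = 1 := by
  classical
  obtain ⟨a₁, ha₁, b₁', hb₁', e₁'⟩ := hAB m
  obtain ⟨a₂, ha₂, b₂', hb₂', e₂'⟩ := hAB (m ^ 2)
  obtain ⟨b₁, hb₁, e₁⟩ : ∃ b₁ ∈ B, m = a₁ * b₁⁻¹ := ⟨b₁'⁻¹, B.inv_mem hb₁', by rw [inv_inv]; exact e₁'⟩
  obtain ⟨b₂, hb₂, e₂⟩ : ∃ b₂ ∈ B, m ^ 2 = a₂ * b₂⁻¹ :=
    ⟨b₂'⁻¹, B.inv_mem hb₂', by rw [inv_inv]; exact e₂'⟩
  obtain ⟨fA, cA⟩ := hA a₁ ha₁ a₂ ha₂
  obtain ⟨fB, cB⟩ := hB b₁ hb₁ b₂ hb₂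
  let S : Set (G × G) := {(a₁, b₁), (a₂, b₂)}
  let K : Subgroup (G × G) := closure S
  have hKle : K ≤ (closure ({a₁, a₂} : Set G)).prod (closure ({b₁, b₂} : Set G)) := by
    show closure S ≤ _
    rw [closure_le]
    intro t ht
    rcases ht with ht | ht
    · rw [ht]
      exact ⟨subset_closure (Or.inl rfl), subset_closure (Or.inl rfl)⟩
    · rw [Set.mem_singleton_iff] at ht
      rw [ht]
      exact ⟨subset_closure (Or.inr rfl), subset_closure (Or.inr rfl)⟩
  let φ : K → (closure ({a₁, a₂} : Set G)) × (closure ({b₁, b₂} : Set G)) := fun k =>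
    (⟨k.1.1, (hKle k.2).1⟩, ⟨k.1.2, (hKle k.2).2⟩)
  have hφ : Function.Injective φ := by
    intro k l h
    apply Subtype.ext
    have h1 := congrArg (fun z => (z.1 : G)) h
    have h2 := congrArg (fun z => (z.2 : G)) h
    exact Prod.ext h1 h2
  have hfin : Finite K := Finite.of_injective φ hφ
  have hcard : Nat.card K ≤ nA * nB := by
    refine (Nat.card_le_card_of_injective φ hφ).trans ?_
    rw [Nat.card_prod]
    exact Nat.mul_le_mul cA cB
  have hfin2 : Fintype K := Fintype.ofFinite K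
  have hKN : ∀ k : K, k.1.1 * k.1.2⁻¹ ∈ N := by
    have h1 : K ≤ (MonoidHom.eqLocus ((QuotientGroup.mk' N).comp (MonoidHom.fst G G))
        ((QuotientGroup.mk' N).comp (MonoidHom.snd G G))) := by
      show closure S ≤ _
      rw [closure_le]
      have h2 : ∀ {a b : G}, a * b⁻¹ ∈ N → QuotientGroup.mk' N a = QuotientGroup.mk' N b := by
        intro a b hab
        have h3 : QuotientGroup.mk' N (a * b⁻¹) = 1 := (QuotientGroup.eq_one_iff _).mpr hab
        rw [map_mul, map_inv, mul_inv_eq_one] at h3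
        exact h3
      intro t ht
      rcases ht with ht | ht
      · rw [ht]
        exact h2 (a := a₁) (b := b₁) (by rw [← e₁]; exact hm)
      · rw [Set.mem_singleton_iff] at ht
        rw [ht]
        exact h2 (a := a₂) (b := b₂) (by rw [← e₂]; exact N.pow_mem hm 2)
    intro k
    have h2 : QuotientGroup.mk' N k.1.1 = QuotientGroup.mk' N k.1.2 := h1 k.2
    have h3 : QuotientGroup.mk' N (k.1.1 * k.1.2⁻¹) = 1 := by
      rw [map_mul, map_inv, h2, mul_inv_cancel]
    exact (QuotientGroup.eq_one_iff _).mp h3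
  let inst : CommGroup N :=
    { (inferInstance : Group N) with
      mul_comm := fun a b => Subtype.ext (hc a.1 a.2 b.1 b.2) }
  let δ : K → Additive N := fun k => Additive.ofMul ⟨k.1.1 * k.1.2⁻¹, hKN k⟩
  let x : K := ⟨(a₁, b₁), subset_closure (Or.inl rfl)⟩
  let y : K := ⟨(a₂, b₂), subset_closure (Or.inr rfl)⟩
  have hxy : closure ({x, y} : Set K) = ⊤ := by
    have h1 := closure_closure_coe_preimage (k := S)
    have h2 : ((↑) : closure S → G × G) ⁻¹' S = ({x, y} : Set K) := by
      ext t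
      constructor
      · intro ht
        rcases ht with ht | ht
        · exact Or.inl (Subtype.ext ht)
        · exact Or.inr (Subtype.ext ht)
      · intro ht
        rcases ht with ht | ht
        · rw [ht]
          exact Or.inl rfl
        · rw [Set.mem_singleton_iff] at ht
          rw [ht]
          exact Or.inr rfl
    rw [h2] at h1
    exact h1
  have hδ1 : δ 1 = 0 := by
    apply Additive.toMul.injective
    apply Subtype.ext
    show (1 : G) * (1 : G)⁻¹ = 1
    rw [inv_one, mul_one]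
  have hδ : ∀ g, δ g + δ (g * y) = 2 • δ (g * x) := by
    intro g
    apply Additive.toMul.injective
    apply Subtype.ext
    show (g.1.1 * g.1.2⁻¹) * ((g.1.1 * a₂) * (g.1.2 * b₂)⁻¹) = ((g.1.1 * a₁) * (g.1.2 * b₁)⁻¹) ^ 2
    have h1 : (g.1.1 * a₂) * (g.1.2 * b₂)⁻¹ = g.1.1 * m ^ 2 * g.1.2⁻¹ := by
      rw [e₂, mul_inv_rev]
      group
    have h2 : (g.1.1 * a₁) * (g.1.2 * b₁)⁻¹ = g.1.1 * m * g.1.2⁻¹ := by
      rw [e₁, mul_inv_rev]
      group
    rw [h1, h2]
    have h3 : g.1.1 * m * g.1.1⁻¹ ∈ N := hN.conj_mem m hm g.1.1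
    have h4 := hc _ (hKN g) _ h3
    have h5 : (g.1.1 * m * g.1.2⁻¹) ^ 2 =
        (g.1.1 * m * g.1.1⁻¹) * ((g.1.1 * g.1.2⁻¹) * (g.1.1 * m * g.1.1⁻¹)) *
          (g.1.1 * g.1.2⁻¹) := by
      rw [sq]
      group
    have h6 : (g.1.1 * g.1.2⁻¹) * (g.1.1 * m ^ 2 * g.1.2⁻¹) =
        ((g.1.1 * g.1.2⁻¹) * (g.1.1 * m * g.1.1⁻¹)) * (g.1.1 * m * g.1.1⁻¹) *
          (g.1.1 * g.1.2⁻¹) := by
      rw [sq]
      group
    have h7 : ∀ c n : G, n * c = c * n → n * c * c * n = c * (n * c) * n := by
      intro c n h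
      have h8 : n * c * c * n = (c * n) * c * n := by rw [h]
      rw [h8]
      group
    rw [h5, h6]
    exact h7 _ _ h4
  obtain ⟨D, hD0, hD, hDδ⟩ := core (M := Additive N) x y hxy δ hδ1 hδ
  refine ⟨D, hD0, hD.trans ?_, ?_⟩
  · rw [← Nat.card_eq_fintype_card]
    exact Nat.pow_le_pow_right (by norm_num) hcard
  · have h1 := hDδ x
    have h2 : ((Additive.toMul (D • δ x) : N) : G) = ((Additive.toMul (0 : Additive N) : N) : G) := by
      rw [h1]
    have h3 : ((Additive.toMul (D • δ x) : N) : G) = (a₁ * b₁⁻¹) ^ D := rfl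
    rw [h3, ← e₁] at h2
    exact h2

end Ab

/-! ## Sections of the derived series -/

section Sol

variable {G : Type u} [Group G]

/-- the derived series of the subgroup `N`, as subgroups of `G` -/
def dser (N : Subgroup G) : ℕ → Subgroup G
  | 0 => N
  | i + 1 => ⁅dser N i, dser N i⁆

theorem dser_normal (N : Subgroup G) (hN : N.Normal) (i : ℕ) : (dser N i).Normal := by
  induction i with
  | zero => exact hN
  | succ i ih =>
    have := ih
    exact Subgroup.commutator_normal (dser N i) (dser N i)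

theorem dser_eq (N : Subgroup G) (i : ℕ) : dser N i = (derivedSeries N i).map N.subtype := by
  induction i with
  | zero =>
    show N = (⊤ : Subgroup N).map N.subtype
    rw [← MonoidHom.range_eq_map, Subgroup.range_subtype]
  | succ i ih =>
    show ⁅dser N i, dser N i⁆ = _
    rw [derivedSeries_succ, Subgroup.map_commutator, ← ih]

/-- The exponent of an abelian normal subgroup. -/
theorem abelian_exp (A B N : Subgroup G) (hN : N.Normal) (nA nB : ℕ)
    (hAB : ∀ g : G, ∃ a ∈ A, ∃ b ∈ B, g = a * b)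
    (hA : ∀ x ∈ A, ∀ y ∈ A, Finite (closure ({x, y} : Set G)) ∧
      Nat.card (closure ({x, y} : Set G)) ≤ nA)
    (hB : ∀ x ∈ B, ∀ y ∈ B, Finite (closure ({x, y} : Set G)) ∧
      Nat.card (closure ({x, y} : Set G)) ≤ nB)
    (hc : ∀ x ∈ N, ∀ y ∈ N, x * y = y * x) :
    ∃ e : ℕ, 0 < e ∧ e ≤ 5 ^ (nA * nB) ∧ ∀ m ∈ N, m ^ e = 1 := by
  let inst : CommGroup N :=
    { (inferInstance : Group N) with
      mul_comm := fun a b => Subtype.ext (hc a.1 a.2 b.1 b.2) }
  have h1 : ∀ m : N, orderOf m ≠ 0 ∧ orderOf m ≤ 5 ^ (nA * nB) := by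
    intro m
    obtain ⟨D, hD0, hD, hm⟩ := abelian_case A B N hN nA nB hAB hA hB hc m.1 m.2
    have h2 : m ^ D = 1 := Subtype.ext hm
    have h3 : orderOf m ∣ D := orderOf_dvd_of_pow_eq_one h2
    constructor
    · intro h0
      rw [h0, zero_dvd_iff] at h3
      omega
    · exact (Nat.le_of_dvd hD0 h3).trans hD
  have h2 : Monoid.ExponentExists N := by
    refine ⟨(5 ^ (nA * nB)).factorial, Nat.factorial_pos _, ?_⟩
    intro m
    have h3 : orderOf m ∣ (5 ^ (nA * nB)).factorial :=
      Nat.dvd_factorial (Nat.pos_of_ne_zero (h1 m).1) (h1 m).2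
    exact orderOf_dvd_iff_pow_eq_one.mp h3
  obtain ⟨m, hm⟩ := Monoid.exists_orderOf_eq_exponent h2
  refine ⟨Monoid.exponent N, Nat.pos_of_ne_zero (Monoid.exponent_ne_zero.mpr h2), ?_, ?_⟩
  · rw [← hm]
    exact (h1 m).2
  · intro x hx
    have h3 : (⟨x, hx⟩ : N) ^ Monoid.exponent N = 1 := Monoid.pow_exponent_eq_one _
    exact congrArg Subtype.val h3

/-- One step of the derived series. -/
theorem step (A B N : Subgroup G) (hN : N.Normal) (nA nB : ℕ)
    (hAB : ∀ g : G, ∃ a ∈ A, ∃ b ∈ B, g = a * b)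
    (hA : ∀ x ∈ A, ∀ y ∈ A, Finite (closure ({x, y} : Set G)) ∧
      Nat.card (closure ({x, y} : Set G)) ≤ nA)
    (hB : ∀ x ∈ B, ∀ y ∈ B, Finite (closure ({x, y} : Set G)) ∧
      Nat.card (closure ({x, y} : Set G)) ≤ nB) :
    ∃ e : ℕ, 0 < e ∧ e ≤ 5 ^ (nA * nB) ∧ ∀ m ∈ N, m ^ e ∈ ⁅N, N⁆ := by
  have hK : ⁅N, N⁆.Normal := Subgroup.commutator_normal N N
  let φ : G →* G ⧸ ⁅N, N⁆ := QuotientGroup.mk' ⁅N, N⁆
  have hφ : Function.Surjective φ := QuotientGroup.mk'_surjective _
  have hfin : ∀ (C : Subgroup G) (c : ℕ), (∀ x ∈ C, ∀ y ∈ C, Finite (closure ({x, y} : Set G)) ∧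
      Nat.card (closure ({x, y} : Set G)) ≤ c) → ∀ x ∈ C.map φ, ∀ y ∈ C.map φ,
      Finite (closure ({x, y} : Set (G ⧸ ⁅N, N⁆))) ∧
      Nat.card (closure ({x, y} : Set (G ⧸ ⁅N, N⁆))) ≤ c := by
    intro C c hC x hx y hy
    obtain ⟨x', hx', rfl⟩ := hx
    obtain ⟨y', hy', rfl⟩ := hy
    obtain ⟨f1, f2⟩ := hC x' hx' y' hy'
    have h1 : closure ({φ x', φ y'} : Set (G ⧸ ⁅N, N⁆)) = (closure ({x', y'} : Set G)).map φ := by
      rw [MonoidHom.map_closure]
      congr 1
      rw [Set.image_pair]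
    rw [h1]
    have hs : Function.Surjective (φ.subgroupMap (closure ({x', y'} : Set G))) :=
      MonoidHom.subgroupMap_surjective _ _
    exact ⟨Finite.of_surjective _ hs, (Nat.card_le_card_of_surjective _ hs).trans f2⟩
  have hN' : (N.map φ).Normal := hN.map φ hφ
  obtain ⟨e, he0, he, h⟩ := abelian_exp (A.map φ) (B.map φ) (N.map φ) hN' nA nB
    (by
      intro g
      obtain ⟨g', rfl⟩ := hφ g
      obtain ⟨a, ha, b, hb, hg⟩ := hAB g'
      exact ⟨φ a, ⟨a, ha, rfl⟩, φ b, ⟨b, hb, rfl⟩, by rw [hg, map_mul]⟩)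
    (hfin A nA hA) (hfin B nB hB)
    (by
      rintro x ⟨x', hx', rfl⟩ y ⟨y', hy', rfl⟩
      have h1 : φ (x' * y' * x'⁻¹ * y'⁻¹) = 1 :=
        (QuotientGroup.eq_one_iff _).mpr (Subgroup.commutator_mem_commutator hx' hy')
      rw [map_mul, map_mul, map_mul, map_inv, map_inv, mul_inv_eq_one,
        mul_inv_eq_iff_eq_mul] at h1
      exact h1)
  refine ⟨e, he0, he, ?_⟩
  intro m hm
  have h1 := h (φ m) ⟨m, hm, rfl⟩
  rw [← map_pow] at h1
  exact (QuotientGroup.eq_one_iff _).mp h1

/-- Soluble normal subgroups. -/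
theorem soluble_exp (A B N : Subgroup G) (hN : N.Normal) (nA nB s : ℕ)
    (hAB : ∀ g : G, ∃ a ∈ A, ∃ b ∈ B, g = a * b)
    (hA : ∀ x ∈ A, ∀ y ∈ A, Finite (closure ({x, y} : Set G)) ∧
      Nat.card (closure ({x, y} : Set G)) ≤ nA)
    (hB : ∀ x ∈ B, ∀ y ∈ B, Finite (closure ({x, y} : Set G)) ∧
      Nat.card (closure ({x, y} : Set G)) ≤ nB)
    (hs : derivedSeries N s = ⊥) :
    ∃ e : ℕ, 0 < e ∧ e ≤ (5 ^ (nA * nB)) ^ s ∧ ∀ m ∈ N, m ^ e = 1 := by
  have h1 : ∀ i : ℕ, ∃ e : ℕ, 0 < e ∧ e ≤ (5 ^ (nA * nB)) ^ i ∧ ∀ m ∈ N, m ^ e ∈ dser N i := by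
    intro i
    induction i with
    | zero =>
      refine ⟨1, one_pos, by rw [pow_zero], ?_⟩
      intro m hm
      rw [pow_one]
      exact hm
    | succ i ih =>
      obtain ⟨e, he0, he, h⟩ := ih
      obtain ⟨e', he0', he', h'⟩ := step A B (dser N i) (dser_normal N hN i) nA nB hAB hA hB
      refine ⟨e * e', Nat.mul_pos he0 he0', ?_, ?_⟩
      · rw [pow_succ]
        exact Nat.mul_le_mul he he'
      · intro m hm
        rw [pow_mul]
        exact h' _ (h m hm)
  obtain ⟨e, he0, he, h⟩ := h1 s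
  refine ⟨e, he0, he, ?_⟩
  intro m hm
  have h2 := h m hm
  rw [dser_eq, hs, Subgroup.map_bot] at h2
  exact h2

end Sol

/-! ## Two-generator soluble groups of bounded exponent -/

section Burn

theorem comm_card {Q : Type u} [CommGroup Q] (e : ℕ) (he : 0 < e) (S : Finset Q)
    (hS : closure (S : Set Q) = ⊤) (hexp : ∀ g : Q, g ^ e = 1) :
    Finite Q ∧ Nat.card Q ≤ e ^ S.card := by
  classical
  let R : Subgroup Q :=
    { carrier := {q | ∃ f : S → ℕ, q = ∏ s : S, (s : Q) ^ f s}
      mul_mem' := by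
        rintro _ _ ⟨f, rfl⟩ ⟨g, rfl⟩
        refine ⟨fun s => f s + g s, ?_⟩
        rw [← Finset.prod_mul_distrib]
        exact Finset.prod_congr rfl fun s _ => (pow_add _ _ _).symm
      one_mem' := by
        refine ⟨fun _ => 0, ?_⟩
        simp
      inv_mem' := by
        rintro _ ⟨f, rfl⟩
        refine ⟨fun s => f s * (e - 1), ?_⟩
        have h1 : ∏ s : S, (s : Q) ^ (f s * (e - 1)) = (∏ s : S, (s : Q) ^ f s) ^ (e - 1) := by
          rw [← Finset.prod_pow]
          exact Finset.prod_congr rfl fun s _ => pow_mul _ _ _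
        rw [h1, inv_eq_iff_mul_eq_one, ← pow_succ', Nat.sub_add_cancel he, hexp] }
  have hR : (⊤ : Subgroup Q) ≤ R := by
    rw [← hS, closure_le]
    intro t ht
    refine ⟨fun s => if s = ⟨t, ht⟩ then 1 else 0, ?_⟩
    have h1 : ∀ s : S, (s : Q) ^ (if s = ⟨t, ht⟩ then 1 else 0) =
        if s = ⟨t, ht⟩ then (s : Q) else 1 := by
      intro s
      by_cases hs : s = ⟨t, ht⟩
      · rw [if_pos hs, if_pos hs, pow_one]
      · rw [if_neg hs, if_neg hs, pow_zero]
    rw [Finset.prod_congr rfl fun s _ => h1 s, Finset.prod_ite_eq' Finset.univ]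
    simp
  let φ : (S → Fin e) → Q := fun f => ∏ s : S, (s : Q) ^ (f s : ℕ)
  have hφ : Function.Surjective φ := by
    intro q
    obtain ⟨f, hf⟩ := hR (mem_top q)
    refine ⟨fun s => ⟨f s % e, Nat.mod_lt _ he⟩, ?_⟩
    rw [hf]
    refine Finset.prod_congr rfl fun s _ => ?_
    show (s : Q) ^ (f s % e) = (s : Q) ^ f s
    conv_rhs => rw [← Nat.mod_add_div (f s) e, pow_add, pow_mul, hexp, one_pow, mul_one]
  refine ⟨Finite.of_surjective φ hφ, (Nat.card_le_card_of_surjective φ hφ).trans ?_⟩
  rw [Nat.card_eq_fintype_card, Fintype.card_fun, Fintype.card_fin, Fintype.card_coe]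

/-- a bound for the order of the groups of exponent dividing `e` and derived length at most `d` with
`r` generators -/
def beta (e : ℕ) : ℕ → ℕ → ℕ
  | 0, _ => 1
  | d + 1, r => e ^ r * beta e d (e ^ r * r)

theorem beta_pos (e : ℕ) (he : 0 < e) (d r : ℕ) : 0 < beta e d r := by
  induction d generalizing r with
  | zero => exact one_pos
  | succ d ih => exact Nat.mul_pos (Nat.pow_pos he) (ih _)

theorem beta_mono (e : ℕ) (he : 0 < e) (d : ℕ) : Monotone (beta e d) := by
  induction d with
  | zero => exact fun _ _ _ => le_rfl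
  | succ d ih =>
    intro r r' h
    have h1 : e ^ r ≤ e ^ r' := Nat.pow_le_pow_right he h
    exact Nat.mul_le_mul h1 (ih (Nat.mul_le_mul h1 h))

theorem der_sub {K : Type u} [Group K] (i : ℕ) :
    (derivedSeries (commutator K) i).map (commutator K).subtype ≤ derivedSeries K (i + 1) := by
  induction i with
  | zero =>
    rw [derivedSeries_one]
    rintro _ ⟨x, _, rfl⟩
    exact x.2
  | succ i ih =>
    rw [derivedSeries_succ, Subgroup.map_commutator, derivedSeries_succ K (i + 1)]
    exact Subgroup.commutator_mono ih ih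

theorem sol_card (e : ℕ) (he : 0 < e) (d : ℕ) : ∀ (K : Type u) [Group K] (S : Finset K),
    closure (S : Set K) = ⊤ → (∀ g : K, g ^ e = 1) → derivedSeries K d = ⊥ →
    Finite K ∧ Nat.card K ≤ beta e d S.card := by
  induction d with
  | zero =>
    intro K _ S _ _ hd
    rw [derivedSeries_zero] at hd
    have h1 : Subsingleton K := by
      constructor
      intro a b
      have ha : a ∈ (⊥ : Subgroup K) := by
        rw [← hd]
        exact mem_top a
      have hb : b ∈ (⊥ : Subgroup K) := by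
        rw [← hd]
        exact mem_top b
      rw [mem_bot] at ha hb
      rw [ha, hb]
    refine ⟨inferInstance, ?_⟩
    exact Finite.card_le_one_iff_subsingleton.mpr h1
  | succ d ih =>
    intro K _ S hS hexp hd
    classical
    let π : K →* Abelianization K := Abelianization.of
    have hπ : Function.Surjective π := QuotientGroup.mk_surjective
    have h1 : closure ((S.image π : Finset (Abelianization K)) : Set (Abelianization K)) = ⊤ := by
      rw [Finset.coe_image, ← MonoidHom.map_closure, hS, ← MonoidHom.range_eq_map,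
        MonoidHom.range_eq_top]
      exact hπ
    obtain ⟨f1, c1⟩ := comm_card e he (S.image π) h1 (by
      intro g
      obtain ⟨g', rfl⟩ := hπ g
      rw [← map_pow, hexp, map_one])
    have c2 : Nat.card (Abelianization K) ≤ e ^ S.card :=
      c1.trans (Nat.pow_le_pow_right he Finset.card_image_le)
    have hidx : (commutator K).index = Nat.card (Abelianization K) := rfl
    have hfi : (commutator K).FiniteIndex := by
      constructor
      rw [hidx]
      have := f1
      exact Nat.card_pos.ne'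
    obtain ⟨T, hT, hTc⟩ := Subgroup.exists_finset_card_le_mul (commutator K) hS
    obtain ⟨f3, c3⟩ := ih (commutator K) T hTc (by
      intro g
      apply Subtype.ext
      exact hexp g.1) (by
      have h2 := der_sub (K := K) d
      rw [hd, le_bot_iff, Subgroup.map_eq_bot_iff_of_injective _ Subtype.val_injective] at h2
      exact h2)
    have h3 : Nat.card K = Nat.card (commutator K) * (commutator K).index :=
      (Subgroup.card_mul_index _).symm
    have h4 : Nat.card (commutator K) ≠ 0 := by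
      have := f3
      exact Nat.card_pos.ne'
    have h5 : Nat.card K ≠ 0 := by
      rw [h3]
      exact Nat.mul_ne_zero h4 hfi.index_ne_zero
    refine ⟨(Nat.card_ne_zero.mp h5).2, ?_⟩
    rw [h3, mul_comm]
    show _ ≤ e ^ S.card * beta e d (e ^ S.card * S.card)
    refine Nat.mul_le_mul (by rw [hidx]; exact c2) (c3.trans (beta_mono e he d (hT.trans ?_)))
    exact Nat.mul_le_mul_right _ (by rw [hidx]; exact c2)

/-- Two-generator subgroups. -/
theorem two_gen {G : Type u} [Group G] (C : Subgroup G) (e d : ℕ) (he : 0 < e)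
    (hexp : ∀ g ∈ C, g ^ e = 1)
    (hd : ∀ x ∈ C, ∀ y ∈ C, derivedSeries (closure ({x, y} : Set G)) d = ⊥) :
    ∀ x ∈ C, ∀ y ∈ C, Finite (closure ({x, y} : Set G)) ∧
      Nat.card (closure ({x, y} : Set G)) ≤ beta e d 2 := by
  classical
  intro x hx y hy
  have hle : closure ({x, y} : Set G) ≤ C := by
    rw [closure_le]
    rintro t (ht | ht)
    · rw [ht]
      exact hx
    · rw [Set.mem_singleton_iff] at ht
      rw [ht]
      exact hy
  let x' : closure ({x, y} : Set G) := ⟨x, subset_closure (Or.inl rfl)⟩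
  let y' : closure ({x, y} : Set G) := ⟨y, subset_closure (Or.inr rfl)⟩
  have hxy : closure ((({x', y'} : Finset (closure ({x, y} : Set G)))) :
      Set (closure ({x, y} : Set G))) = ⊤ := by
    have h1 := closure_closure_coe_preimage (k := ({x, y} : Set G))
    have h2 : ((↑) : closure ({x, y} : Set G) → G) ⁻¹' ({x, y} : Set G) =
        (({x', y'} : Finset (closure ({x, y} : Set G))) : Set (closure ({x, y} : Set G))) := by
      rw [Finset.coe_pair]
      ext t
      constructor
      · rintro (ht | ht)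
        · exact Or.inl (Subtype.ext ht)
        · exact Or.inr (Subtype.ext ht)
      · rintro (ht | ht)
        · rw [ht]
          exact Or.inl rfl
        · rw [Set.mem_singleton_iff] at ht
          rw [ht]
          exact Or.inr rfl
    rw [h2] at h1
    exact h1
  obtain ⟨f, c⟩ := sol_card e he d (closure ({x, y} : Set G)) {x', y'} hxy
    (fun g => Subtype.ext (hexp g.1 (hle g.2))) (hd x hx y hy)
  exact ⟨f, c.trans (beta_mono e he d Finset.card_le_two)⟩

end Burn

/-- There is a function `F` such that the following holds. Let `G = A B` be a group, `A` and `B`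
subgroups of finite exponents, and let all two-generator subgroups of `A` and of `B` have derived
length at most `d`. Then every normal subgroup `N` of `G` of derived length at most `s` has a finite
exponent, at most `F (exp A) (exp B) d s`.
(For `N = G` and `s = d`: the exponent of a group `G = A B` of derived length at most `s` is at most
`F (exp A) (exp B) s s`.) -/
theorem result : ∃ F : ℕ → ℕ → ℕ → ℕ → ℕ,
    ∀ (G : Type u) [Group G] (A B N : Subgroup G) (d s : ℕ),
      (∀ g : G, ∃ a ∈ A, ∃ b ∈ B, g = a * b) →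
      Monoid.exponent A ≠ 0 → Monoid.exponent B ≠ 0 →
      (∀ x ∈ A, ∀ y ∈ A, derivedSeries (closure ({x, y} : Set G)) d = ⊥) →
      (∀ x ∈ B, ∀ y ∈ B, derivedSeries (closure ({x, y} : Set G)) d = ⊥) →
      N.Normal → derivedSeries N s = ⊥ →
      Monoid.exponent N ≠ 0 ∧
        Monoid.exponent N ≤ F (Monoid.exponent A) (Monoid.exponent B) d s := by
  refine ⟨fun e f d s => (5 ^ (beta e d 2 * beta f d 2)) ^ s, ?_⟩
  intro G _ A B N d s hAB hA hB hAd hBd hN hNs
  have hA1 : ∀ g ∈ A, g ^ Monoid.exponent A = 1 := fun g hg =>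
    congrArg Subtype.val (Monoid.pow_exponent_eq_one (⟨g, hg⟩ : A))
  have hB1 : ∀ g ∈ B, g ^ Monoid.exponent B = 1 := fun g hg =>
    congrArg Subtype.val (Monoid.pow_exponent_eq_one (⟨g, hg⟩ : B))
  obtain ⟨e, he0, he, h⟩ := soluble_exp A B N hN (beta (Monoid.exponent A) d 2)
    (beta (Monoid.exponent B) d 2) s hAB
    (two_gen A _ d (Nat.pos_of_ne_zero hA) hA1 hAd)
    (two_gen B _ d (Nat.pos_of_ne_zero hB) hB1 hBd) hNs
  have h1 : ∀ m : N, m ^ e = 1 := fun m => Subtype.ext (h m.1 m.2)
  have h2 : Monoid.exponent N ∣ e := Monoid.exponent_dvd_of_forall_pow_eq_one h1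
  refine ⟨?_, (Nat.le_of_dvd he0 h2).trans he⟩
  intro h0
  rw [h0, zero_dvd_iff] at h2
  omega

end Pool.Agent.Results.MP_87fd0b_al.DerivedLength
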