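import Pool.Agent.Results.MP_87fd0b_al.CubicLowerBound

/-!
# Factorized two-groups with large exponent

For all `a`, `b` there is a finite `2`-group `G = A B` with `exp A = 2 ^ a`, `exp B = 2 ^ b` and
`exp G = 2 ^ (a + b + min a b ((a + b) / 3))`.
-/

set_option autoImplicit false

namespace Pool.Agent.Results.MP_87fd0b_al.TwoGroups

open RegularWreathProduct Finset CubicLowerBound

/-! ## A group of order 64 -/

/-- The data of the maps `y ↦ ± y + (u, v)` and `y ↦ ± swap y + (u, v)` of `(Z / 4) ^ 2`. -/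
abbrev Raw : Type := ZMod 4 × ZMod 4 × Bool × Bool

namespace Raw

/-- The action of the signs. -/
def sgn (e : Bool) (u : ZMod 4) : ZMod 4 := if e then -u else u

/-- The product. -/
def mul (x y : Raw) : Raw :=
  (x.1 + sgn x.2.2.1 (if x.2.2.2 then y.2.1 else y.1),
    x.2.1 + sgn x.2.2.1 (if x.2.2.2 then y.1 else y.2.1), xor x.2.2.1 y.2.2.1,
    xor x.2.2.2 y.2.2.2)

/-- The inverse. -/
def inv (x : Raw) : Raw :=
  (-sgn x.2.2.1 (if x.2.2.2 then x.2.1 else x.1),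
    -sgn x.2.2.1 (if x.2.2.2 then x.1 else x.2.1), x.2.2.1, x.2.2.2)

theorem mul_assoc (x y z : Raw) : mul (mul x y) z = mul x (mul y z) := by
  obtain ⟨u, v, e, s⟩ := x
  obtain ⟨u', v', e', s'⟩ := y
  obtain ⟨u'', v'', e'', s''⟩ := z
  cases e <;> cases s <;> cases e' <;> cases s' <;>
    simp [mul, sgn, add_assoc, add_comm, add_left_comm]

theorem one_mul (x : Raw) : mul (0, 0, false, false) x = x := by
  obtain ⟨u, v, e, s⟩ := x
  simp [mul, sgn]

theorem mul_one (x : Raw) : mul x (0, 0, false, false) = x := by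
  obtain ⟨u, v, e, s⟩ := x
  cases e <;> cases s <;> simp [mul, sgn]

theorem inv_mul (x : Raw) : mul (inv x) x = (0, 0, false, false) := by
  obtain ⟨u, v, e, s⟩ := x
  cases e <;> cases s <;> simp [mul, inv, sgn]

end Raw

/-- The group of these maps. -/
def Gam : Type := Raw

namespace Gam

instance : DecidableEq Gam := inferInstanceAs (DecidableEq Raw)

instance : Fintype Gam := inferInstanceAs (Fintype Raw)

instance : Group Gam where
  mul := Raw.mul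
  one := ((0, 0, false, false) : Raw)
  inv := Raw.inv
  mul_assoc := Raw.mul_assoc
  one_mul := Raw.one_mul
  mul_one := Raw.mul_one
  inv_mul_cancel := Raw.inv_mul

/-- The first factor. -/
def A : Subgroup Gam where
  carrier := {x : Raw | x.1 = x.2.1 ∧ x.2.2.1 = decide (x.1.val % 2 = 1)}
  mul_mem' := by
    have h : ∀ x y : Raw, (x.1 = x.2.1 ∧ x.2.2.1 = decide (x.1.val % 2 = 1)) →
      (y.1 = y.2.1 ∧ y.2.2.1 = decide (y.1.val % 2 = 1)) →
      (Raw.mul x y).1 = (Raw.mul x y).2.1 ∧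
        (Raw.mul x y).2.2.1 = decide ((Raw.mul x y).1.val % 2 = 1) := by decide +kernel
    exact fun {x y} => h x y
  one_mem' := by
    change (0 : ZMod 4) = 0 ∧ false = decide ((0 : ZMod 4).val % 2 = 1)
    decide
  inv_mem' := by
    have h : ∀ x : Raw, (x.1 = x.2.1 ∧ x.2.2.1 = decide (x.1.val % 2 = 1)) →
      (Raw.inv x).1 = (Raw.inv x).2.1 ∧
        (Raw.inv x).2.2.1 = decide ((Raw.inv x).1.val % 2 = 1) := by decide +kernel
    exact fun {x} => h x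

/-- The second factor. -/
def B : Subgroup Gam where
  carrier := {x : Raw | x.1 = 0 ∧ x.2.2.2 = false}
  mul_mem' := by
    have h : ∀ x y : Raw, (x.1 = 0 ∧ x.2.2.2 = false) → (y.1 = 0 ∧ y.2.2.2 = false) →
      (Raw.mul x y).1 = 0 ∧ (Raw.mul x y).2.2.2 = false := by decide +kernel
    exact fun {x y} => h x y
  one_mem' := by
    change (0 : ZMod 4) = 0 ∧ false = false
    decide
  inv_mem' := by
    have h : ∀ x : Raw, (x.1 = 0 ∧ x.2.2.2 = false) →
      (Raw.inv x).1 = 0 ∧ (Raw.inv x).2.2.2 = false := by decide +kernel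
    exact fun {x} => h x

/-- The element of order eight. -/
def g : Gam := ((1, 0, false, true) : Raw)

/-- The first factor of an element, as data. -/
def fr (k : Raw) : Raw :=
  if k.2.2.2 then (k.2.1, k.2.1, decide (k.2.1.val % 2 = 1), true) else
    (k.1, k.1, decide (k.1.val % 2 = 1), false)

/-- The first factor of an element. -/
def fa (k : Gam) : Gam := fr k

/-- The translations. -/
def tr (u v : ZMod 4) : Gam := ((u, v, false, false) : Raw)

instance (x : Gam) : Decidable (x ∈ A) :=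
  inferInstanceAs (Decidable ((x : Raw).1 = (x : Raw).2.1 ∧
    (x : Raw).2.2.1 = decide ((x : Raw).1.val % 2 = 1)))

instance (x : Gam) : Decidable (x ∈ B) :=
  inferInstanceAs (Decidable ((x : Raw).1 = 0 ∧ (x : Raw).2.2.2 = false))

theorem factor : ∀ k : Gam, fa k ∈ A ∧ (fa k)⁻¹ * k ∈ B := by decide +kernel

theorem pow_K : ∀ x : Gam, x ^ 2 ^ 3 = 1 := by decide +kernel

theorem pow_A : ∀ x : Gam, x ∈ A → x ^ 2 ^ 1 = 1 := by decide +kernel

theorem pow_B : ∀ x : Gam, x ∈ B → x ^ 2 ^ 2 = 1 := by decide +kernel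

theorem g_pow : g ^ 2 ^ 2 ≠ 1 := by decide +kernel

theorem g_conj : ∀ x : Gam, ∀ n : Fin 8, x * g ^ (n : ℕ) * x⁻¹ ∈ B → g ^ (n : ℕ) = 1 := by
  decide +kernel

theorem conj_B : ∀ x s : Gam, x * s * x⁻¹ ∈ B → s ^ 2 ≠ 1 →
    s = tr 1 0 ∨ s = tr 3 0 ∨ s = tr 0 1 ∨ s = tr 0 3 := by
  decide +kernel

theorem tr_inv : ∀ s : Gam, (s = tr 1 0 ∨ s = tr 3 0 ∨ s = tr 0 1 ∨ s = tr 0 3) →
    (s⁻¹ = tr 1 0 ∨ s⁻¹ = tr 3 0 ∨ s⁻¹ = tr 0 1 ∨ s⁻¹ = tr 0 3) := by
  decide +kernel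

theorem tr_conj : ∀ x s : Gam, (s = tr 1 0 ∨ s = tr 3 0 ∨ s = tr 0 1 ∨ s = tr 0 3) →
    (x * s * x⁻¹ = tr 1 0 ∨ x * s * x⁻¹ = tr 3 0 ∨ x * s * x⁻¹ = tr 0 1 ∨
      x * s * x⁻¹ = tr 0 3) := by
  decide +kernel

/-- The function which gives the element of order 16. -/
def v0 (y : Raw) : Z 2 :=
  if y.2.2.1 = false ∧ y.2.2.2 = false ∧ (y.1 = 1 ∨ y.1 = 3) ∧ (y.2.1 = 2 ∨ y.2.1 = 3) then gen 2
    else 1

theorem v0_tr : ∀ s : Gam, (s = tr 1 0 ∨ s = tr 3 0 ∨ s = tr 0 1 ∨ s = tr 0 3) →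
    ∀ y : Gam, ∏ i ∈ range 4, v0 (s ^ i * y : Gam) = 1 := by
  rintro s (rfl | rfl | rfl | rfl) <;> decide +kernel

theorem v0_g : ∏ i ∈ range 8, v0 (g⁻¹ ^ i * 1 : Gam) ≠ 1 := by decide +kernel

/-! ## The extension -/

/-- The translations of order four in the directions of the axes. -/
def IsTr (s : Gam) : Prop := s = tr 1 0 ∨ s = tr 3 0 ∨ s = tr 0 1 ∨ s = tr 0 3

/-- The functions whose products over rows and columns are trivial. -/
def V : Subgroup (Gam → Z 2) where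
  carrier := {v | ∀ s, IsTr s → ∀ y, ∏ i ∈ range 4, v (s ^ i * y) = 1}
  mul_mem' := by
    intro v w hv hw s hs y
    simp only [Pi.mul_apply]
    rw [prod_mul_distrib, hv s hs, hw s hs, mul_one]
  one_mem' := by
    intro s _ y
    simp
  inv_mem' := by
    intro v hv s hs y
    simp only [Pi.inv_apply]
    rw [prod_inv_distrib, hv s hs, inv_one]

theorem V_trans {v : Gam → Z 2} (hv : v ∈ V) (x : Gam) : (fun y => v (x * y)) ∈ V := by
  intro s hs y
  have h := hv (x * s * x⁻¹) (tr_conj x s hs) (x * y)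
  rw [← h]
  refine prod_congr rfl fun i _ => ?_
  rw [conj_pow]
  change v (x * (s ^ i * y)) = _
  congr 1
  group

/-- The extension of the subgroup `L`. -/
def KK (L : Subgroup Gam) : Subgroup (Z 2 ≀ᵣ Gam) where
  carrier := {w | w.left ∈ V ∧ w.right ∈ L}
  mul_mem' := by
    rintro v w ⟨hv, hv'⟩ ⟨hw, hw'⟩
    exact ⟨V.mul_mem hv (V_trans hw v.right⁻¹), L.mul_mem hv' hw'⟩
  one_mem' := ⟨V.one_mem, L.one_mem⟩
  inv_mem' := by
    rintro v ⟨hv, hv'⟩
    exact ⟨V_trans (V.inv_mem hv) v.right, L.inv_mem hv'⟩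

theorem pow_two {w : Z 2 ≀ᵣ Gam} (h : w.right = 1) : w ^ 2 = 1 := by
  refine RegularWreathProduct.ext ?_ ?_
  · funext x
    rw [pow_left_of_right_eq_one h]
    exact pow_p _
  · rw [pow_right, h]
    rfl

theorem KK_pow (w : Z 2 ≀ᵣ Gam) : w ^ 2 ^ 4 = 1 := by
  have h : (2 : ℕ) ^ 4 = 8 * 2 := rfl
  rw [h, pow_mul]
  refine pow_two ?_
  rw [pow_right]
  exact pow_K _

theorem KB_pow {w : Z 2 ≀ᵣ Gam} (hw : w ∈ KK B) : w ^ 2 ^ 2 = 1 := by
  obtain ⟨hv, hB⟩ := hw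
  have h4 : (2 : ℕ) ^ 2 = 2 * 2 := rfl
  by_cases h : w.right ^ 2 = 1
  · rw [h4, pow_mul]
    refine pow_two ?_
    rw [pow_right]
    exact h
  · have hs : IsTr w.right := conj_B 1 _ (by rw [one_mul, inv_one, mul_one]; exact hB) h
    refine RegularWreathProduct.ext ?_ ?_
    · funext x
      rw [pow_left]
      exact hv _ (tr_inv _ hs) x
    · rw [pow_right]
      exact pow_B _ hB

theorem seed : Fac 2 1 2 4 := by
  have hv0 : v0 ∈ V := v0_tr
  have o1 : (⟨v0, g⟩ : Z 2 ≀ᵣ Gam) ^ 2 ^ 3 ≠ 1 := by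
    intro h
    have h1 : ((⟨v0, g⟩ : Z 2 ≀ᵣ Gam) ^ 2 ^ 3).left 1 = 1 := by
      rw [h]
      rfl
    rw [pow_left] at h1
    exact v0_g h1
  have o2 : (inl (tr 2 2) : Z 2 ≀ᵣ Gam) ^ 2 = 1 := by
    rw [← map_pow, show tr 2 2 ^ 2 = 1 by decide, map_one]
  have o3 : (inl (tr 2 2) : Z 2 ≀ᵣ Gam) ≠ 1 := fun h =>
    absurd (congrArg RegularWreathProduct.right h) (by decide : tr 2 2 ≠ 1)
  have o4 : (inl (tr 0 1) : Z 2 ≀ᵣ Gam) ^ 2 ^ 1 ≠ 1 := fun h => by
    rw [← map_pow] at h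
    exact absurd (congrArg RegularWreathProduct.right h) (by decide : tr 0 1 ^ 2 ^ 1 ≠ 1)
  have hB : (inl (tr 0 1) : Z 2 ≀ᵣ Gam) ∈ KK B := ⟨V.one_mem, (by decide : tr 0 1 ∈ B)⟩
  refine ⟨Z 2 ≀ᵣ Gam, inferInstance, inferInstance, KK ⊤, A.map inl, KK B, ?_, ?_, ?_,
    fun w _ => KK_pow w, ?_, fun w hw => KB_pow hw, ⟨⟨v0, g⟩, ⟨hv0, trivial⟩, ?_⟩,
    ⟨inl (tr 2 2), ⟨tr 2 2, (by decide : tr 2 2 ∈ A), rfl⟩, ?_⟩, ⟨inl (tr 0 1), hB, ?_⟩⟩
  · rintro _ ⟨a, _, rfl⟩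
    exact ⟨V.one_mem, trivial⟩
  · rintro w ⟨hw, _⟩
    exact ⟨hw, trivial⟩
  · rintro w ⟨hw, _⟩
    refine ⟨inl (fa w.right), ⟨_, (factor w.right).1, rfl⟩,
      ⟨fun x => w.left (fa w.right * x), (fa w.right)⁻¹ * w.right⟩,
      ⟨V_trans hw _, (factor w.right).2⟩, ?_⟩
    refine RegularWreathProduct.ext ?_ ?_
    · funext x
      rw [mul_left, left_inl, one_mul, right_inl]
      change w.left x = w.left (fa w.right * ((fa w.right)⁻¹ * x))
      rw [mul_inv_cancel_left]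
    · rw [mul_right, right_inl]
      exact (mul_inv_cancel_left _ _).symm
  · rintro _ ⟨a, ha, rfl⟩
    rw [← map_pow, pow_A a ha, map_one]
  · rw [orderOf_eq_prime_pow o1 (KK_pow _)]
  · rw [orderOf_eq_prime o2 o3, pow_one]
  · rw [orderOf_eq_prime_pow o4 (KB_pow hB)]

end Gam

/-! ## All exponents -/

theorem fac_symm {p a b c : ℕ} (h : Fac p a b c) : Fac p b a c := by
  obtain ⟨H, _, _, K, A, B, hA, hB, hf, eK, eA, eB, oK, oA, oB⟩ := h
  refine ⟨H, inferInstance, inferInstance, K, B, A, hB, hA, fun k hk => ?_, eK, eB, eA, oK, oB, oA⟩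
  obtain ⟨x, hx, y, hy, hxy⟩ := hf _ (K.inv_mem hk)
  refine ⟨y⁻¹, B.inv_mem hy, x⁻¹, A.inv_mem hx, ?_⟩
  rw [← mul_inv_rev, ← hxy, inv_inv]

theorem fac_mul {p a b c : ℕ} (h : Fac p a b c) (m : ℕ) : Fac p (a * m) (b * m) (c * m) := by
  induction m with
  | zero => exact fac_zero p
  | succ m ih => exact ih.wreath h

theorem fac_all (a b : ℕ) : Fac 2 a b (a + b + min (min a b) ((a + b) / 3)) := by
  obtain ⟨x, y, h1, h2, h3⟩ : ∃ x y : ℕ, x + y = min (min a b) ((a + b) / 3) ∧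
      x + 2 * y ≤ a ∧ 2 * x + y ≤ b := by
    refine ⟨min (min a b) ((a + b) / 3) - min (min (min a b) ((a + b) / 3))
      (a - min (min a b) ((a + b) / 3)), min (min (min a b) ((a + b) / 3))
      (a - min (min a b) ((a + b) / 3)), ?_, ?_, ?_⟩ <;> omega
  have h4 := (((fac_mul Gam.seed x).wreath (fac_mul (fac_symm Gam.seed) y)).wreath
    (fac_mul (fac_left 2) (a - (x + 2 * y)))).wreath (fac_mul (fac_right 2) (b - (2 * x + y)))
  have e1 : 1 * x + 2 * y + 1 * (a - (x + 2 * y)) + 0 * (b - (2 * x + y)) = a := by omega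
  have e2 : 2 * x + 1 * y + 0 * (a - (x + 2 * y)) + 1 * (b - (2 * x + y)) = b := by omega
  have e3 : 4 * x + 4 * y + 1 * (a - (x + 2 * y)) + 1 * (b - (2 * x + y)) =
      a + b + min (min a b) ((a + b) / 3) := by omega
  rwa [e1, e2, e3] at h4

theorem exponent_eq {H : Type} [Group H] {S : Subgroup H} {p n : ℕ}
    (h1 : ∀ y ∈ S, y ^ p ^ n = 1) (h2 : ∃ x ∈ S, p ^ n ∣ orderOf x) :
    Monoid.exponent S = p ^ n := by
  obtain ⟨x, hx, ox⟩ := h2
  refine Nat.dvd_antisymm ?_ ?_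
  · refine Monoid.exponent_dvd_of_forall_pow_eq_one fun y => ?_
    exact Subtype.ext (h1 y.1 y.2)
  · refine ox.trans ?_
    have h3 := Monoid.order_dvd_exponent (⟨x, hx⟩ : S)
    rwa [Subgroup.orderOf_mk] at h3

/-- For all `a`, `b` there is a finite `2`-group `G = A B` with `exp A = 2 ^ a`, `exp B = 2 ^ b` and
`exp G = 2 ^ (a + b + min a b ((a + b) / 3))`. -/
theorem result (a b : ℕ) :
    ∃ (G : Type) (_ : Group G) (_ : Finite G) (A B : Subgroup G), IsPGroup 2 G ∧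
      (∀ g : G, ∃ x ∈ A, ∃ y ∈ B, g = x * y) ∧ Monoid.exponent A = 2 ^ a ∧
      Monoid.exponent B = 2 ^ b ∧
      Monoid.exponent G = 2 ^ (a + b + min (min a b) ((a + b) / 3)) := by
  obtain ⟨H, _, _, K, A, B, hA, hB, hf, eK, eA, eB, oK, oA, oB⟩ := fac_all a b
  refine ⟨K, inferInstance, inferInstance, A.subgroupOf K, B.subgroupOf K, ?_, ?_, ?_, ?_,
    exponent_eq eK oK⟩
  · intro g
    exact ⟨_, Subtype.ext (eK g.1 g.2)⟩
  · intro g
    obtain ⟨u, hu, v, hv, huv⟩ := hf g.1 g.2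
    exact ⟨⟨u, hA hu⟩, hu, ⟨v, hB hv⟩, hv, Subtype.ext huv⟩
  · rw [Monoid.exponent_eq_of_mulEquiv (Subgroup.subgroupOfEquivOfLe hA)]
    exact exponent_eq eA oA
  · rw [Monoid.exponent_eq_of_mulEquiv (Subgroup.subgroupOfEquivOfLe hB)]
    exact exponent_eq eB oB

end Pool.Agent.Results.MP_87fd0b_al.TwoGroups
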