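import Pool.Agent.Results.MP_87fd0b_al.CubicLowerBound
import Pool.Agent.Lib.MP_87fd0b_al.Seed

/-!
# The exponent of `G = A B` is not bounded by a multiple of the exponent of `B`

For every prime `p` and every `c` there is a finite `p`-group `G = A B` with `A` elementary abelian
of order `p ^ c` and `exp G = p ^ c * exp B`; and there is `N` such that for all `a` and all
`b ≥ N * a` there is a finite `p`-group `G = A B` with `exp A = p ^ a`, `exp B = p ^ b` and
`exp G = p ^ (b + c * a)`.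
-/

set_option autoImplicit false

namespace Pool.Agent.Results.MP_87fd0b_al.UnboundedRatio

open RegularWreathProduct Finset CubicLowerBound

/-! ## Homomorphisms on wreath products -/

section Hom

variable {D Q C : Type} [Group D] [Group Q] [CommGroup C]

theorem hom_pow_left (θ : D →* C) (w : D ≀ᵣ Q) (k : ℕ) (x : Q) :
    θ ((w ^ k).left x) = ∏ i ∈ range k, θ (w.left (w.right⁻¹ ^ i * x)) := by
  induction k generalizing x with
  | zero =>
    rw [pow_zero, range_zero, prod_empty]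
    exact map_one θ
  | succ k ih =>
    rw [pow_succ_left, map_mul, ih, prod_range_succ', pow_zero, one_mul, mul_comm]
    refine congrArg (· * _) (prod_congr rfl fun i _ => ?_)
    rw [pow_succ, mul_assoc]

/-- The product over the coordinates. -/
def tot [Fintype Q] (θ : D →* C) : (D ≀ᵣ Q) →* C where
  toFun w := ∏ x, θ (w.left x)
  map_one' := by
    refine prod_eq_one fun x _ => ?_
    exact map_one θ
  map_mul' y z := by
    simp only [mul_left, Pi.mul_apply, map_mul, prod_mul_distrib]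
    exact congrArg (_ * ·) (Equiv.prod_comp (Equiv.mulLeft y.right⁻¹) fun x => θ (z.left x))

theorem tot_apply [Fintype Q] (θ : D →* C) (w : D ≀ᵣ Q) : tot θ w = ∏ x, θ (w.left x) := rfl

theorem tot_el [Fintype Q] (θ : D →* C) (d : D) (q : Q) : tot θ (el d q) = θ d := by
  classical
  rw [tot_apply]
  have h : ∀ x ∈ (univ : Finset Q), θ ((el d q).left x) = if x = 1 then θ d else 1 := by
    intro x _
    by_cases h : x = 1
    · rw [if_pos h, h, el_left_one]
    · rw [if_neg h, el_left_of_ne _ _ h, map_one]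
  rw [prod_congr rfl h, prod_ite_eq' univ (1 : Q) (fun _ => θ d), if_pos (mem_univ _)]

theorem pow_eq_one_of_left {w : D ≀ᵣ Q} (h : w.right = 1) {n : ℕ}
    (h' : ∀ x, w.left x ^ n = 1) : w ^ n = 1 := by
  refine RegularWreathProduct.ext ?_ ?_
  · funext x
    rw [pow_left_of_right_eq_one h, h']
    rfl
  · rw [pow_right, h, one_pow]
    rfl

theorem dvd_orderOf {w : D ≀ᵣ Q} {n m : ℕ} (hn : n ∣ orderOf w.right) {x : Q}
    (hm : m ∣ orderOf ((w ^ orderOf w.right).left x)) : n * m ∣ orderOf w := by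
  refine (mul_dvd_mul_right hn m).trans ?_
  have h0 : w ^ orderOf w = 1 := pow_orderOf_eq_one _
  have h1 : w.right ^ orderOf w = 1 := by
    have := congrArg RegularWreathProduct.right h0
    rw [pow_right] at this
    exact this
  obtain ⟨j, hj⟩ := orderOf_dvd_of_pow_eq_one h1
  have h2 : (w ^ orderOf w.right).right = 1 := by
    rw [pow_right]
    exact pow_orderOf_eq_one _
  have h3 : ((w ^ orderOf w.right).left x) ^ j = 1 := by
    rw [← pow_left_of_right_eq_one h2, ← pow_mul, ← hj, h0]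
    rfl
  rw [hj]
  exact mul_dvd_mul_left _ (hm.trans (orderOf_dvd_of_pow_eq_one h3))

/-- The product over an orbit of a generator. -/
theorem prod_gen [Fintype Q] {r : Q} (h : orderOf r = Fintype.card Q) (x : Q) (F : Q → C) :
    ∏ i ∈ range (orderOf r), F (r ^ i * x) = ∏ z, F z := by
  have hinj : Set.InjOn (fun i : ℕ => r ^ i * x) (range (orderOf r) : Set ℕ) := by
    intro i hi j hj hij
    have h1 : r ^ i = r ^ j := mul_right_cancel hij
    rw [coe_range, Set.mem_Iio] at hi hj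
    exact pow_injOn_Iio_orderOf hi hj h1
  classical
  have himg : (range (orderOf r)).image (fun i : ℕ => r ^ i * x) = univ := by
    refine eq_univ_of_card _ ?_
    rw [card_image_of_injOn hinj, card_range, h]
  rw [← himg, prod_image hinj]

end Hom

/-! ## The block group -/

/-- A group of exponent `p ^ r` and homomorphisms to the cyclic group of order `p`: the elements in
one of the kernels have smaller order. -/
def Block (p r : ℕ) (ι : Type) : Prop :=
  ∃ (W : Type) (_ : Group W) (_ : Finite W) (X : ι → W →* Z p), (∀ h : W, h ^ p ^ r = 1) ∧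
    (∀ (h : W) i, X i h = 1 → ∃ s, s + 1 = r ∧ h ^ p ^ s = 1) ∧
    (∀ h : W, (∀ i, X i h = gen p) → p ^ r ∣ orderOf h) ∧
    ∀ c : ι → Z p, ∃ h, ∀ i, X i h = c i

theorem block_step {p r : ℕ} [Fact p.Prime] {ι : Type} (h : Block p r ι) :
    Block p (r + 1) (Option ι) := by
  classical
  obtain ⟨W, _, _, X, h1, h2, h3, h4⟩ := h
  have hcard : ∀ {q : Z p}, q ≠ 1 → orderOf q⁻¹ = Fintype.card (Z p) := by
    intro q hq
    rw [orderOf_inv, orderOf_of_ne_one hq, Fintype.card_multiplicative, ZMod.card]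
  have key : ∀ (w : W ≀ᵣ Z p) (i : ι), w.right ≠ 1 → ∀ x,
      X i ((w ^ p).left x) = tot (X i) w := by
    intro w i hw x
    rw [hom_pow_left, tot_apply, ← prod_gen (hcard hw) x fun z => X i (w.left z), orderOf_inv,
      orderOf_of_ne_one hw]
  have hr : ∀ w : W ≀ᵣ Z p, (w ^ p).right = 1 := by
    intro w
    rw [pow_right, pow_p]
  refine ⟨W ≀ᵣ Z p, inferInstance, inferInstance,
    fun o => o.elim rightHom fun i => tot (X i), ?_, ?_, ?_, ?_⟩
  · intro w
    rw [pow_succ']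
    rw [pow_mul]
    exact pow_eq_one_of_left (hr w) fun x => h1 _
  · intro w o ho
    refine ⟨r, rfl, ?_⟩
    by_cases hw : w.right = 1
    · exact pow_eq_one_of_left hw fun x => h1 _
    · cases o with
      | none => exact absurd ho hw
      | some i =>
        have h5 : ∀ x, X i ((w ^ p).left x) = 1 := fun x => (key w i hw x).trans ho
        obtain ⟨s, hs, -⟩ := h2 _ i (h5 1)
        have h6 : ∀ x, ((w ^ p).left x) ^ p ^ s = 1 := by
          intro x
          obtain ⟨s', hs', h7⟩ := h2 _ i (h5 x)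
          rwa [show s' = s by omega] at h7
        rw [← hs, pow_succ', pow_mul]
        exact pow_eq_one_of_left (hr w) h6
  · intro w hw
    have hw1 : w.right = gen p := hw none
    have ho : orderOf w.right = p := by rw [hw1, orderOf_gen]
    have hw2 : w.right ≠ 1 := by
      rw [hw1]
      exact gen_ne_one
    rw [pow_succ']
    refine dvd_orderOf (x := 1) (dvd_of_eq ho.symm) ?_
    rw [ho]
    refine h3 _ fun i => ?_
    rw [key w i hw2]
    exact hw (some i)
  · intro c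
    obtain ⟨h, hh⟩ := h4 fun i => c (some i)
    refine ⟨el h (c none), fun o => ?_⟩
    cases o with
    | none => rfl
    | some i => exact (tot_el (X i) h (c none)).trans (hh i)

theorem block_all (p : ℕ) [Fact p.Prime] (ι : Type) [Finite ι] : ∃ r, Block p r ι := by
  refine Finite.induction_empty_option (P := fun ι : Type => ∃ r, Block p r ι) ?_ ?_ ?_ ι
  · rintro α β e ⟨r, W, _, _, X, h1, h2, h3, h4⟩
    refine ⟨r, W, inferInstance, inferInstance, fun b => X (e.symm b), h1, fun h i => h2 h _,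
      fun h hh => h3 h fun i => ?_, fun c => ?_⟩
    · have h5 : X (e.symm (e i)) h = gen p := hh (e i)
      rwa [e.symm_apply_apply] at h5
    · obtain ⟨h, hh⟩ := h4 fun a => c (e a)
      refine ⟨h, fun i => ?_⟩
      rw [hh, e.apply_symm_apply]
  · refine ⟨0, Unit, inferInstance, inferInstance, fun i => i.elim, fun _ => rfl,
      fun _ i => i.elim, fun _ _ => ?_, fun _ => ⟨1, fun i => i.elim⟩⟩
    rw [pow_zero]
    exact one_dvd _
  · rintro α _ ⟨r, h⟩
    exact ⟨r + 1, block_step h⟩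

/-! ## Convolutions -/

section Conv

variable {E : Type} [Group E] [Fintype E]

/-- The convolution of `c` and `F`, modulo `n`. -/
def conv (n : ℕ) (F c : E → ℤ) (x : E) : Z n :=
  Multiplicative.ofAdd ((∑ d, c d * F (x⁻¹ * d) : ℤ) : ZMod n)

theorem conv_zero (n : ℕ) (F : E → ℤ) (x : E) : conv n F 0 x = 1 := by
  simp [conv]

theorem conv_add (n : ℕ) (F c c' : E → ℤ) (x : E) :
    conv n F (c + c') x = conv n F c x * conv n F c' x := by
  simp [conv, add_mul, sum_add_distrib]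

theorem conv_neg (n : ℕ) (F c : E → ℤ) (x : E) : conv n F (-c) x = (conv n F c x)⁻¹ := by
  simp [conv]

theorem conv_trans (n : ℕ) (F c : E → ℤ) (g x : E) :
    conv n F c (g * x) = conv n F (fun d => c (g * d)) x := by
  unfold conv
  rw [← Equiv.sum_comp (Equiv.mulLeft g) fun d => c d * F ((g * x)⁻¹ * d)]
  simp only [Equiv.coe_mulLeft, mul_inv_rev, mul_assoc, inv_mul_cancel_left]

theorem prod_conv (n : ℕ) (F c : E → ℤ) (s x : E) (m : ℕ) :
    ∏ i ∈ range m, conv n F c (s⁻¹ ^ i * x) =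
      Multiplicative.ofAdd ((∑ d, c d * ∑ i ∈ range m, F (x⁻¹ * (s ^ i * d)) : ℤ) : ZMod n) := by
  unfold conv
  rw [← ofAdd_sum, ← Int.cast_sum, sum_comm]
  refine congrArg (fun z : ℤ => Multiplicative.ofAdd (z : ZMod n)) (sum_congr rfl fun d _ => ?_)
  rw [mul_sum]
  refine sum_congr rfl fun i _ => ?_
  rw [mul_inv_rev, inv_pow, inv_inv, mul_assoc]

omit [Fintype E] in
theorem conj_aux (x s d : E) (i : ℕ) :
    (x⁻¹ * s * x) ^ i * (x⁻¹ * d) = x⁻¹ * (s ^ i * d) := by
  have h := conj_pow (i := i) (a := x⁻¹) (b := s)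
  rw [inv_inv] at h
  rw [h]
  group

variable {H : Type} [Group H]

theorem hom_conv {n : ℕ} {θ : H →* Z n} {F c : E → ℤ} {w : H ≀ᵣ E}
    (h : ∀ x, θ (w.left x) = conv n F c x) (m : ℕ) (x : E) :
    θ ((w ^ m).left x) = Multiplicative.ofAdd ((∑ d, c d *
      ∑ i ∈ range m, F ((x⁻¹ * w.right * x) ^ i * (x⁻¹ * d)) : ℤ) : ZMod n) := by
  rw [hom_pow_left, prod_congr rfl fun i _ => h _, prod_conv]
  simp only [conj_aux]

variable {ι : Type} {p : ℕ}

/-- The functions whose images are convolutions. -/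
def DD (X : ι → H →* Z p) (G : ι → E → ℤ) : Subgroup (E → H) where
  carrier := {f | ∃ c : E → ℤ, ∀ x i, X i (f x) = conv p (G i) c x}
  mul_mem' := by
    rintro f f' ⟨c, h⟩ ⟨c', h'⟩
    refine ⟨c + c', fun x i => ?_⟩
    rw [conv_add, Pi.mul_apply, map_mul, h, h']
  one_mem' := by
    refine ⟨0, fun x i => ?_⟩
    rw [conv_zero, Pi.one_apply, map_one]
  inv_mem' := by
    rintro f ⟨c, h⟩
    refine ⟨-c, fun x i => ?_⟩
    rw [conv_neg, Pi.inv_apply, map_inv, h]

theorem DD_trans {X : ι → H →* Z p} {G : ι → E → ℤ} {f : E → H} (hf : f ∈ DD X G) (g : E) :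
    (fun x => f (g * x)) ∈ DD X G := by
  obtain ⟨c, h⟩ := hf
  refine ⟨fun d => c (g * d), fun x i => ?_⟩
  rw [← conv_trans]
  exact h _ i

/-- The extension of the group. -/
def KK (X : ι → H →* Z p) (G : ι → E → ℤ) : Subgroup (H ≀ᵣ E) where
  carrier := {w | w.left ∈ DD X G}
  mul_mem' := by
    intro v w hv hw
    exact (DD X G).mul_mem hv (DD_trans hw v.right⁻¹)
  one_mem' := (DD X G).one_mem
  inv_mem' := by
    intro v hv
    exact DD_trans ((DD X G).inv_mem hv) v.right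

end Conv

/-! ## The extension which saves one factor over `S` -/

theorem sum_shift {E : Type} [Group E] [Finite E] [DecidableEq E] (s y : E) :
    ∑ j ∈ range (orderOf s), (((if s ^ j * y = 1 then 1 else 0) : ℤ) -
      if s ^ j * y = s then 1 else 0) = 0 := by
  obtain ⟨m, hm⟩ := Nat.exists_eq_succ_of_ne_zero (orderOf_pos s).ne'
  rw [sum_sub_distrib, sub_eq_zero, hm, sum_range_succ, sum_range_succ']
  have h1 : ∀ j : ℕ, (s ^ (j + 1) * y = s ↔ s ^ j * y = 1) := by
    intro j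
    rw [pow_succ', mul_assoc]
    exact mul_eq_left
  have h2 : s ^ m * y = 1 ↔ s ^ 0 * y = s := by
    have h3 : s ^ m * s = 1 := by
      rw [← pow_succ, ← Nat.succ_eq_add_one, ← hm]
      exact pow_orderOf_eq_one s
    rw [pow_zero, one_mul]
    constructor
    · intro h
      exact mul_left_cancel (h.trans h3.symm)
    · intro h
      rw [h, h3]
  simp only [h1, h2]

theorem drop {p : ℕ} [Fact p.Prime] {Γ : Type} [Group Γ] (S : Set Γ)
    (hS : ∀ s ∈ S, ∀ x : Γ, x⁻¹ * s * x ∈ S) {E : Type} [Group E] [Finite E] (π : E →* Γ) (g : E)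
    (hg : ∀ n : ℕ, π g ^ n ∉ S) : ∃ (r : ℕ) (E' : Type) (_ : Group E') (_ : Finite E')
    (ρ : E' →* E) (τ : E →* E') (g' : E'), (∀ x, ρ (τ x) = x) ∧ (∀ w, ρ w = 1 → w ^ p ^ r = 1) ∧
      (∀ w, π (ρ w) ∈ S → ∃ s, s + 1 = r ∧ w ^ (orderOf (ρ w) * p ^ s) = 1) ∧ ρ g' = g ∧
      orderOf g * p ^ r ∣ orderOf g' := by
  classical
  have := Fintype.ofFinite E
  obtain ⟨r, H, _, _, X, h1, h2, h3, h4⟩ := block_all p {s : E // π s ∈ S}
  let G : {s : E // π s ∈ S} → E → ℤ := fun i y =>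
    (if y = 1 then 1 else 0) - if y = i.1 then 1 else 0
  have hr : ∀ w : H ≀ᵣ E, (w ^ orderOf w.right).right = 1 := by
    intro w
    rw [pow_right]
    exact pow_orderOf_eq_one _
  choose f hf using fun x : E => h4 fun i => conv p (G i) (Pi.single 1 1) x
  have hmem : (⟨f, g⟩ : H ≀ᵣ E) ∈ KK X G := ⟨Pi.single 1 1, hf⟩
  let ρ : KK X G →* E := rightHom.comp (KK X G).subtype
  let τ : E →* KK X G := (inl : E →* H ≀ᵣ E).codRestrict (KK X G) fun x => (DD X G).one_mem
  refine ⟨r, KK X G, inferInstance, inferInstance, ρ, τ,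
    ⟨⟨f, g⟩, hmem⟩, fun _ => rfl, ?_, ?_, rfl, ?_⟩
  · intro w hw
    exact Subtype.ext (pow_eq_one_of_left hw fun x => h1 _)
  · rintro ⟨w, c, hc⟩ hw
    change π w.right ∈ S at hw
    have hconj : ∀ x : E, π (x⁻¹ * w.right * x) ∈ S := by
      intro x
      rw [map_mul, map_mul, map_inv]
      exact hS _ hw _
    have key : ∀ x, ∃ s, s + 1 = r ∧ ((w ^ orderOf w.right).left x) ^ p ^ s = 1 := by
      intro x
      let i0 : {s : E // π s ∈ S} := ⟨x⁻¹ * w.right * x, hconj x⟩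
      refine h2 _ i0 ?_
      rw [hom_conv fun y => hc y i0]
      have ho : orderOf (x⁻¹ * w.right * x) = orderOf w.right := by
        have h7 := orderOf_injective (MulAut.conj x⁻¹).toMonoidHom (MulAut.conj x⁻¹).injective
          w.right
        simpa using h7
      have h6 : ∀ y : E,
          ∑ i ∈ range (orderOf w.right), G i0 ((x⁻¹ * w.right * x) ^ i * y) = 0 := by
        intro y
        rw [← ho]
        exact sum_shift _ y
      simp only [h6, mul_zero, sum_const_zero, Int.cast_zero]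
      rfl
    obtain ⟨s, hs', -⟩ := key 1
    have key' : ∀ x, ((w ^ orderOf w.right).left x) ^ p ^ s = 1 := by
      intro x
      obtain ⟨s', hs'', h7⟩ := key x
      rwa [show s' = s by omega] at h7
    refine ⟨s, hs', Subtype.ext ?_⟩
    change w ^ (orderOf w.right * p ^ s) = 1
    rw [pow_mul]
    exact pow_eq_one_of_left (hr w) key'
  · rw [Subgroup.orderOf_mk]
    refine dvd_orderOf (w := (⟨f, g⟩ : H ≀ᵣ E)) dvd_rfl (x := 1) (h3 _ fun i => ?_)
    rw [hom_conv (w := (⟨f, g⟩ : H ≀ᵣ E)) fun x => hf x i]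
    change Multiplicative.ofAdd ((∑ d, (Pi.single 1 1 : E → ℤ) d *
      ∑ j ∈ range (orderOf g), G i (((1 : E)⁻¹ * g * 1) ^ j * ((1 : E)⁻¹ * d)) : ℤ) :
        ZMod p) = _
    have h6 : ∑ d, (Pi.single 1 1 : E → ℤ) d *
        ∑ j ∈ range (orderOf g), G i (((1 : E)⁻¹ * g * 1) ^ j * ((1 : E)⁻¹ * d)) = 1 := by
      rw [sum_eq_single_of_mem 1 (mem_univ _)]
      · rw [Pi.single_eq_same, one_mul]
        simp only [inv_one, one_mul, mul_one]
        rw [sum_eq_single_of_mem 0 (mem_range.2 (orderOf_pos g))]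
        · have h7 : (1 : E) ≠ i.1 := by
            intro h
            refine hg 0 ?_
            rw [pow_zero, ← map_one π, h]
            exact i.2
          change (if g ^ 0 = 1 then (1 : ℤ) else 0) - (if g ^ 0 = i.1 then 1 else 0) = 1
          rw [pow_zero, if_pos rfl, if_neg h7, sub_zero]
        · intro j hj hj0
          have h7 : g ^ j ≠ i.1 := by
            intro h
            refine hg j ?_
            rw [← map_pow, h]
            exact i.2
          change (if g ^ j = 1 then (1 : ℤ) else 0) - (if g ^ j = i.1 then 1 else 0) = 0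
          rw [if_neg h7, if_neg (pow_ne_one_of_lt_orderOf hj0 (mem_range.1 hj)), sub_zero]
      · intro d _ hd
        rw [Pi.single_eq_of_ne hd, zero_mul]
    rw [h6, Int.cast_one]
    rfl

theorem iter {p : ℕ} [Fact p.Prime] {Γ : Type} [Group Γ] [Finite Γ] (S : Set Γ)
    (hS : ∀ s ∈ S, ∀ x : Γ, x⁻¹ * s * x ∈ S) (g₀ : Γ) (hg : ∀ n : ℕ, g₀ ^ n ∉ S) (i : ℕ) :
    ∃ (β : ℕ) (E : Type) (_ : Group E) (_ : Finite E) (π : E →* Γ) (σ : Γ →* E) (g : E),
      (∀ x, π (σ x) = x) ∧ (∀ w, π w = 1 → w ^ p ^ β = 1) ∧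
      (∀ w, π w ∈ S → ∃ γ, γ + i = β ∧ w ^ (orderOf (π w) * p ^ γ) = 1) ∧ π g = g₀ ∧
      orderOf g₀ * p ^ β ∣ orderOf g := by
  induction i with
  | zero =>
    refine ⟨0, Γ, inferInstance, inferInstance, MonoidHom.id Γ, MonoidHom.id Γ, g₀, fun _ => rfl,
      fun w hw => ?_, fun w _ => ⟨0, rfl, ?_⟩, rfl, ?_⟩
    · rw [pow_zero, pow_one]
      exact hw
    · rw [pow_zero, mul_one]
      exact pow_orderOf_eq_one w
    · rw [pow_zero, mul_one]
  | succ i ih =>
    obtain ⟨β, E, _, _, π, σ, g, e1, e2, e3, e4, e5⟩ := ih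
    obtain ⟨r, E', _, _, ρ, τ, g', d1, d2, d3, d4, d5⟩ := drop (p := p) S hS π g
      (by rw [e4]; exact hg)
    refine ⟨β + r, E', inferInstance, inferInstance, π.comp ρ, τ.comp σ, g', fun x => ?_,
      fun w hw => ?_, fun w hw => ?_, ?_, ?_⟩
    · change π (ρ (τ (σ x))) = x
      rw [d1, e1]
    · have h1 : ρ (w ^ p ^ β) = 1 := by
        rw [map_pow]
        exact e2 _ hw
      rw [pow_add, pow_mul]
      exact d2 _ h1
    · obtain ⟨γ, hγ, h1⟩ := e3 _ hw
      obtain ⟨s, hs, h2⟩ := d3 w hw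
      refine ⟨γ + s, by omega, ?_⟩
      obtain ⟨m, hm⟩ := orderOf_dvd_of_pow_eq_one h1
      change w ^ (orderOf (π (ρ w)) * p ^ (γ + s)) = 1
      rw [pow_add, ← mul_assoc, hm, mul_right_comm, pow_mul, h2, one_pow]
    · change π (ρ g') = g₀
      rw [d4, e4]
    · refine dvd_trans ?_ d5
      rw [pow_add, ← mul_assoc]
      exact mul_dvd_mul_right e5 _

/-! ## The main step -/

theorem core {p c : ℕ} [Fact p.Prime] {Γ : Type} [Group Γ] [Finite Γ] (A B : Subgroup Γ) (g : Γ)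
    (hf : ∀ x : Γ, ∃ a ∈ A, ∃ b ∈ B, x = a * b) (eA : ∀ a ∈ A, a ^ p = 1)
    (cA : ∀ a ∈ A, ∀ b ∈ A, a * b = b * a) (card : Nat.card A = p ^ c)
    (eK : ∀ x : Γ, x ^ p ^ c = 1) (og : p ^ c ∣ orderOf g)
    (hgB : ∀ (x : Γ) (n : ℕ), x * g ^ n * x⁻¹ ∈ B → g ^ n = 1) :
    ∃ (b : ℕ) (G : Type) (_ : Group G) (_ : Finite G) (A B : Subgroup G),
      (∀ g : G, ∃ x ∈ A, ∃ y ∈ B, g = x * y) ∧ (∀ x ∈ A, x ^ p = 1) ∧
      (∀ x ∈ A, ∀ y ∈ A, x * y = y * x) ∧ Nat.card A = p ^ c ∧ (∀ x ∈ B, x ^ p ^ b = 1) ∧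
      (∀ x : G, x ^ p ^ (b + c) = 1) ∧ (∃ x ∈ B, p ^ b ∣ orderOf x) ∧
      ∃ x : G, p ^ (b + c) ∣ orderOf x := by
  obtain ⟨β, E, _, _, π, σ, g', e1, e2, e3, e4, e5⟩ := iter (p := p)
    {s : Γ | s ≠ 1 ∧ ∃ x, x * s * x⁻¹ ∈ B} (by
      rintro s ⟨hs, x, hx⟩ y
      refine ⟨fun h => hs ?_, x * y, ?_⟩
      · calc s = y * (y⁻¹ * s * y) * y⁻¹ := by group
          _ = 1 := by rw [h, mul_one, mul_inv_cancel]
      · convert hx using 1
        group) g (by
      rintro n ⟨h1, x, hx⟩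
      exact h1 (hgB x n hx)) c
  have hσ : Function.Injective σ := fun x y h => by rw [← e1 x, h, e1]
  have o1 : p ^ (β + c) ∣ orderOf g' := by
    rw [pow_add, mul_comm]
    exact (mul_dvd_mul_right og _).trans e5
  refine ⟨β, E, inferInstance, inferInstance, A.map σ, B.comap π, ?_, ?_, ?_, ?_, ?_, ?_,
    ⟨g' ^ p ^ c, ?_, ?_⟩, g', o1⟩
  · intro w
    obtain ⟨a, ha, b, hb, hab⟩ := hf (π w)
    refine ⟨σ a, ⟨a, ha, rfl⟩, (σ a)⁻¹ * w, ?_, (mul_inv_cancel_left _ _).symm⟩
    rw [Subgroup.mem_comap, map_mul, map_inv, e1, hab, inv_mul_cancel_left]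
    exact hb
  · rintro _ ⟨a, ha, rfl⟩
    rw [← map_pow, eA a ha, map_one]
  · rintro _ ⟨a, ha, rfl⟩ _ ⟨b, hb, rfl⟩
    rw [← map_mul, ← map_mul, cA a ha b hb]
  · rw [← card]
    exact Nat.card_congr (A.equivMapOfInjective σ hσ).symm.toEquiv
  · intro w hw
    by_cases h : π w = 1
    · exact e2 w h
    · obtain ⟨γ, hγ, h1⟩ := e3 w ⟨h, 1, by rw [one_mul, inv_one, mul_one]; exact hw⟩
      obtain ⟨m, hm⟩ := orderOf_dvd_of_pow_eq_one (eK (π w))
      rw [← hγ, pow_add, mul_comm, hm, mul_right_comm, pow_mul, h1, one_pow]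
  · intro w
    have h1 : π (w ^ p ^ c) = 1 := by rw [map_pow, eK]
    rw [pow_add, mul_comm, pow_mul]
    exact e2 _ h1
  · rw [Subgroup.mem_comap, map_pow, e4, eK]
    exact B.one_mem
  · have h1 : p ^ (β + c) ∣ p ^ c * orderOf (g' ^ p ^ c) := by
      refine o1.trans (orderOf_dvd_of_pow_eq_one ?_)
      rw [pow_mul]
      exact pow_orderOf_eq_one _
    rw [pow_add, mul_comm] at h1
    exact Nat.dvd_of_mul_dvd_mul_left (pow_pos (Fact.out : p.Prime).pos _) h1

/-! ## All exponents -/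

theorem fac_all {p N c : ℕ} [Fact p.Prime] (h : Fac p 1 N (N + c)) {a b : ℕ} (hab : N * a ≤ b) :
    Fac p a b (b + c * a) := by
  have h1 : ∀ m, Fac p m (N * m) ((N + c) * m) := by
    intro m
    induction m with
    | zero => exact fac_zero p
    | succ m ih => exact ih.wreath h
  have h2 : ∀ b, Fac p 0 b b := by
    intro b
    induction b with
    | zero => exact fac_zero p
    | succ b ih => exact ih.wreath (fac_right p)
  have h3 := (h1 a).wreath (h2 (b - N * a))
  have e2 : N * a + (b - N * a) = b := by omega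
  have e3 : (N + c) * a + (b - N * a) = b + c * a := by
    rw [add_mul]
    omega
  rwa [e2, e3] at h3

theorem fac_one_one (p : ℕ) [Fact p.Prime] : Fac p 1 1 1 :=
  ⟨Z p, inferInstance, inferInstance, ⊤, ⊤, ⊤, le_rfl, le_rfl,
    fun k _ => ⟨k, trivial, 1, trivial, (mul_one k).symm⟩,
    fun x _ => by rw [pow_one]; exact pow_p x, fun x _ => by rw [pow_one]; exact pow_p x,
    fun x _ => by rw [pow_one]; exact pow_p x,
    ⟨gen p, trivial, by rw [orderOf_gen, pow_one]⟩, ⟨gen p, trivial, by rw [orderOf_gen, pow_one]⟩,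
    ⟨gen p, trivial, by rw [orderOf_gen, pow_one]⟩⟩

theorem exponent_eq {H : Type} [Group H] {S : Subgroup H} {p n : ℕ}
    (h1 : ∀ y ∈ S, y ^ p ^ n = 1) (h2 : ∃ x ∈ S, p ^ n ∣ orderOf x) :
    Monoid.exponent S = p ^ n := by
  obtain ⟨x, hx, ox⟩ := h2
  refine Nat.dvd_antisymm ?_ ?_
  · refine Monoid.exponent_dvd_of_forall_pow_eq_one fun y => ?_
    exact Subtype.ext (h1 y.1 y.2)
  · refine ox.trans ?_
    have h3 := Monoid.order_dvd_exponent (⟨x, hx⟩ : S)
    rwa [Subgroup.orderOf_mk] at h3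

theorem of_fac {p a b c : ℕ} (h : Fac p a b c) :
    ∃ (G : Type) (_ : Group G) (_ : Finite G) (A B : Subgroup G), IsPGroup p G ∧
      (∀ g : G, ∃ x ∈ A, ∃ y ∈ B, g = x * y) ∧ Monoid.exponent A = p ^ a ∧
      Monoid.exponent B = p ^ b ∧ Monoid.exponent G = p ^ c := by
  obtain ⟨H, _, _, K, A, B, hA, hB, hf, eK, eA, eB, oK, oA, oB⟩ := h
  refine ⟨K, inferInstance, inferInstance, A.subgroupOf K, B.subgroupOf K, ?_, ?_, ?_, ?_,
    exponent_eq eK oK⟩
  · intro g
    exact ⟨c, Subtype.ext (eK g.1 g.2)⟩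
  · intro g
    obtain ⟨u, hu, v, hv, huv⟩ := hf g.1 g.2
    exact ⟨⟨u, hA hu⟩, hu, ⟨v, hB hv⟩, hv, Subtype.ext huv⟩
  · rw [Monoid.exponent_eq_of_mulEquiv (Subgroup.subgroupOfEquivOfLe hA)]
    exact exponent_eq eA oA
  · rw [Monoid.exponent_eq_of_mulEquiv (Subgroup.subgroupOfEquivOfLe hB)]
    exact exponent_eq eB oB

/-- For every prime `p` and every `c`: there is a finite `p`-group `G = A B` with `A` elementary
abelian of order `p ^ c` and `exp G = p ^ c * exp B`; and there is `N` such that for all `a` and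
all `b ≥ N * a` there is a finite `p`-group `G = A B` with `exp A = p ^ a`, `exp B = p ^ b` and
`exp G = p ^ (b + c * a)`. -/
theorem result (p : ℕ) (hp : p.Prime) (c : ℕ) :
    (∃ (b : ℕ) (G : Type) (_ : Group G) (_ : Finite G) (A B : Subgroup G), IsPGroup p G ∧
      (∀ g : G, ∃ x ∈ A, ∃ y ∈ B, g = x * y) ∧ (∀ x ∈ A, x ^ p = 1) ∧
      (∀ x ∈ A, ∀ y ∈ A, x * y = y * x) ∧ Nat.card A = p ^ c ∧
      Monoid.exponent B = p ^ b ∧ Monoid.exponent G = p ^ (b + c)) ∧
    ∃ N : ℕ, ∀ a b : ℕ, N * a ≤ b →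
      ∃ (G : Type) (_ : Group G) (_ : Finite G) (A B : Subgroup G), IsPGroup p G ∧
        (∀ g : G, ∃ x ∈ A, ∃ y ∈ B, g = x * y) ∧ Monoid.exponent A = p ^ a ∧
        Monoid.exponent B = p ^ b ∧ Monoid.exponent G = p ^ (b + c * a) := by
  have : Fact p.Prime := ⟨hp⟩
  obtain ⟨Γ, _, _, A₀, B₀, g₀, s1, s2, s3, s4, s5, s6, s7⟩ :=
    Pool.Agent.Lib.MP_87fd0b_al.Seed.seed p c
  obtain ⟨b, G, _, _, A, B, h1, h2, h3, h4, h5, h6, h7, x, hx⟩ :=
    core A₀ B₀ g₀ s1 s2 s3 s4 s5 s6 s7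
  have hG : Monoid.exponent G = p ^ (b + c) := by
    refine Nat.dvd_antisymm (Monoid.exponent_dvd_of_forall_pow_eq_one h6) ?_
    exact hx.trans (Monoid.order_dvd_exponent x)
  refine ⟨⟨b, G, inferInstance, inferInstance, A, B, fun g => ⟨b + c, h6 g⟩, h1, h2, h3, h4,
    exponent_eq h5 h7, hG⟩, ?_⟩
  have hfac : ∃ N, Fac p 1 N (N + c) := by
    rcases Nat.eq_zero_or_pos c with rfl | hc
    · exact ⟨1, fac_one_one p⟩
    · refine ⟨b, G, inferInstance, inferInstance, ⊤, A, B, le_top, le_top, fun k _ => h1 k,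
        fun x _ => h6 x, fun x hx => by rw [pow_one]; exact h2 x hx, h5, ⟨x, trivial, hx⟩, ?_, h7⟩
      have h8 : Nontrivial A := by
        rw [← Finite.one_lt_card_iff_nontrivial, h4]
        exact Nat.one_lt_pow hc.ne' hp.one_lt
      obtain ⟨y, hy⟩ := exists_ne (1 : A)
      refine ⟨y.1, y.2, ?_⟩
      rw [orderOf_eq_prime (h2 y.1 y.2) fun h => hy (Subtype.ext h), pow_one]
  obtain ⟨N, hN⟩ := hfac
  exact ⟨N, fun a b hab => of_fac (fac_all hN hab)⟩

end Pool.Agent.Results.MP_87fd0b_al.UnboundedRatio
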